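import Mathlib

set_option autoImplicit false

/-!
# Highest differing digits

`D a b` is one plus the index of the highest binary digit in which `a` and `b` differ (`0` if
`a = b`).  For a finite set `X` of naturals, `sq X` is the list of the numbers `D x y` for
consecutive elements `x < y` of `X`.  Deleting an element of `X` replaces two neighbouring entries
of `sq X` by their maximum.
-/

namespace Pool.Agent.N479.RK

open Finset

/-- one plus the index of the highest binary digit in which `a` and `b` differ -/
def D (a b : ℕ) : ℕ := if h : a = b then 0 else D (a / 2) (b / 2) + 1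
termination_by a + b
decreasing_by omega

lemma D_self (a : ℕ) : D a a = 0 := by
  rw [D]; simp

lemma D_ne {a b : ℕ} (h : a ≠ b) : D a b = D (a / 2) (b / 2) + 1 := by
  conv_lhs => rw [D]
  simp [h]

lemma D_pos {a b : ℕ} (h : a ≠ b) : 0 < D a b := by
  rw [D_ne h]; omega

lemma D_max : ∀ (n a b c : ℕ), c ≤ n → a ≤ b → b ≤ c → D a c = max (D a b) (D b c) := by
  intro n
  induction n with
  | zero =>
    intro a b c h1 h2 h3
    have : a = 0 := by omega
    have : b = 0 := by omega
    have : c = 0 := by omega
    subst_vars
    simp [D_self]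
  | succ n ih =>
    intro a b c h1 h2 h3
    rcases Nat.eq_or_lt_of_le h2 with rfl | hab
    · simp [D_self]
    rcases Nat.eq_or_lt_of_le h3 with rfl | hbc
    · simp [D_self]
    rw [D_ne (show a ≠ c by omega), D_ne hab.ne, D_ne hbc.ne,
      ih (a / 2) (b / 2) (c / 2) (by omega) (by omega) (by omega)]
    omega

lemma D_ne_D : ∀ (n a b c : ℕ), c ≤ n → a < b → b < c → D a b ≠ D b c := by
  intro n
  induction n with
  | zero => intro a b c h1 h2 h3; omega
  | succ n ih =>
    intro a b c h1 h2 h3
    rw [D_ne h2.ne, D_ne h3.ne]
    rcases Nat.eq_or_lt_of_le (show a / 2 ≤ b / 2 by omega) with h4 | h4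
    · have h5 : b / 2 ≠ c / 2 := by omega
      have := D_pos h5
      rw [h4, D_self]
      omega
    · rcases Nat.eq_or_lt_of_le (show b / 2 ≤ c / 2 by omega) with h5 | h5
      · have := D_pos h4.ne
        rw [← h5, D_self]
        omega
      · have := ih (a / 2) (b / 2) (c / 2) (by omega) h4 h5
        omega

lemma D_le : ∀ (N a b : ℕ), a < 2 ^ N → b < 2 ^ N → D a b ≤ N := by
  intro N
  induction N with
  | zero =>
    intro a b h1 h2
    have : a = b := by omega
    rw [this, D_self]
  | succ N ih =>
    intro a b h1 h2
    by_cases h : a = b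
    · rw [h, D_self]; omega
    · rw [D_ne h]
      have := ih (a / 2) (b / 2) (by rw [pow_succ] at h1; omega) (by rw [pow_succ] at h2; omega)
      omega

/-- the list of the numbers `D x y` for neighbours `x`, `y` in a list -/
def sqL : List ℕ → List ℕ
  | [] => []
  | [_] => []
  | x :: y :: l => D x y :: sqL (y :: l)

/-- the sequence of a finite set of naturals -/
def sq (X : Finset ℕ) : List ℕ := sqL (X.sort (· ≤ ·))

lemma length_sqL : ∀ l : List ℕ, (sqL l).length = l.length - 1
  | [] => rfl
  | [_] => rfl
  | x :: y :: l => by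
    rw [sqL, List.length_cons, length_sqL (y :: l)]
    simp

lemma length_sq (X : Finset ℕ) : (sq X).length = X.card - 1 := by
  rw [sq, length_sqL, Finset.length_sort]

lemma sqL_append : ∀ (l : List ℕ) (x : ℕ) (l' : List ℕ),
    sqL (l ++ x :: l') = sqL (l ++ [x]) ++ sqL (x :: l')
  | [], x, l' => by simp [sqL]
  | [a], x, l' => by simp [sqL]
  | a :: b :: l, x, l' => by
    have := sqL_append (b :: l) x l'
    simp only [List.cons_append] at this ⊢
    rw [sqL, sqL, this]
    simp

/-- splitting a list at an entry of its sequence -/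
lemma sqL_split : ∀ (l S1 : List ℕ) (u v : ℕ) (S2 : List ℕ), sqL l = S1 ++ u :: v :: S2 →
    ∃ l1 a b c l2, l = l1 ++ a :: b :: c :: l2 ∧ sqL (l1 ++ [a]) = S1 ∧ D a b = u ∧ D b c = v ∧
      sqL (c :: l2) = S2
  | [], S1, u, v, S2, h => by simp [sqL] at h
  | [_], S1, u, v, S2, h => by simp [sqL] at h
  | [x, y], S1, u, v, S2, h => by
    have := congrArg List.length h
    simp [sqL] at this
    omega
  | x :: y :: z :: l, [], u, v, S2, h => by
    simp only [sqL, List.nil_append, List.cons.injEq] at h
    exact ⟨[], x, y, z, l, rfl, rfl, h.1, h.2.1, h.2.2⟩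
  | x :: y :: z :: l, s :: S1, u, v, S2, h => by
    rw [sqL] at h
    simp only [List.cons_append, List.cons.injEq] at h
    obtain ⟨h1, h2⟩ := h
    obtain ⟨l1, a, b, c, l2, h3, h4, h5, h6, h7⟩ := sqL_split (y :: z :: l) S1 u v S2 h2
    refine ⟨x :: l1, a, b, c, l2, by rw [h3]; rfl, ?_, h5, h6, h7⟩
    cases l1 with
    | nil =>
      simp only [List.nil_append, List.cons.injEq] at h3
      simp only [List.nil_append, sqL] at h4
      simp only [List.cons_append, List.nil_append, sqL]
      rw [← h4, ← h3.1, h1]
    | cons w l1 =>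
      simp only [List.cons_append, List.cons.injEq] at h3
      simp only [List.cons_append] at h4 ⊢
      rw [sqL, h4, ← h3.1, h1]

/-- The deletion lemma. -/
lemma sq_delete {X : Finset ℕ} {S1 S2 : List ℕ} {u v : ℕ} (h : sq X = S1 ++ u :: v :: S2) :
    u ≠ v ∧ ∃ x ∈ X, sq (X.erase x) = S1 ++ max u v :: S2 := by
  obtain ⟨l1, a, b, c, l2, h1, h2, h3, h4, h5⟩ := sqL_split _ _ _ _ _ h
  have hs : (X.sort (· ≤ ·)).SortedLT := Finset.sortedLT_sort X
  rw [h1] at hs
  have hs2 : (a :: b :: c :: l2).SortedLT := by
    have := hs.pairwise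
    exact ((List.pairwise_append.1 this).2.1).sortedLT
  have hab : a < b := by
    have := hs2.pairwise
    rw [List.pairwise_cons] at this
    exact this.1 b (by simp)
  have hbc : b < c := by
    have := hs2.pairwise
    rw [List.pairwise_cons, List.pairwise_cons] at this
    exact this.2.1 c (by simp)
  have hnd : (l1 ++ a :: b :: c :: l2).Nodup := hs.nodup
  have hbX : b ∈ X := by
    rw [← Finset.mem_sort (· ≤ ·), h1]
    simp
  refine ⟨?_, b, hbX, ?_⟩
  · rw [← h3, ← h4]
    exact D_ne_D c a b c le_rfl hab hbc
  · have herase : (X.erase b).sort (· ≤ ·) = l1 ++ a :: c :: l2 := by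
      apply List.Perm.eq_of_pairwise' (r := (· ≤ ·))
      · exact Finset.pairwise_sort _ _
      · have h6 : (l1 ++ a :: c :: l2).Sublist (l1 ++ a :: b :: c :: l2) := by
          apply List.Sublist.append_left
          apply List.Sublist.cons_cons
          exact List.sublist_cons_self _ _
        exact (hs.pairwise.sublist h6).imp (fun h => le_of_lt h)
      · rw [List.perm_ext_iff_of_nodup (Finset.sort_nodup _ _)]
        · intro x
          rw [Finset.mem_sort, Finset.mem_erase, ← Finset.mem_sort (· ≤ ·), h1]
          simp only [List.mem_append, List.mem_cons]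
          have hb1 : b ∉ l1 := by
            intro hb
            have := (List.nodup_append.1 hnd).2.2 b hb b (by simp)
            exact this rfl
          have hb2 : b ∉ c :: l2 := by
            have := (List.nodup_append.1 hnd).2.1
            rw [List.nodup_cons, List.nodup_cons] at this
            exact this.2.1
          rw [List.mem_cons] at hb2
          push Not at hb2
          constructor
          · rintro ⟨hx, hx'⟩
            tauto
          · rintro (hx | hx | hx | hx)
            · exact ⟨fun h => hb1 (h ▸ hx), Or.inl hx⟩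
            · exact ⟨by omega, Or.inr (Or.inl hx)⟩
            · exact ⟨by omega, by tauto⟩
            · exact ⟨fun h => hb2.2 (h ▸ hx), by tauto⟩
        · have h6 : (l1 ++ a :: c :: l2).Sublist (l1 ++ a :: b :: c :: l2) := by
            apply List.Sublist.append_left
            apply List.Sublist.cons_cons
            exact List.sublist_cons_self _ _
          exact hnd.sublist h6
    rw [sq, herase, sqL_append, h2, sqL, h5, D_max c a b c le_rfl hab.le hbc.le, h3, h4]

lemma sq_lt {N : ℕ} {X : Finset ℕ} (hX : ∀ x ∈ X, x < 2 ^ N) : ∀ d ∈ sq X, d < N + 1 := by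
  have key : ∀ l : List ℕ, (∀ x ∈ l, x < 2 ^ N) → ∀ d ∈ sqL l, d < N + 1 := by
    intro l
    induction l with
    | nil => intro _ d hd; simp [sqL] at hd
    | cons x l ih =>
      intro hl d hd
      cases l with
      | nil => simp [sqL] at hd
      | cons y l =>
        rw [sqL, List.mem_cons] at hd
        rcases hd with rfl | hd
        · have := D_le N x y (hl x (by simp)) (hl y (by simp))
          omega
        · exact ih (fun z hz => hl z (by simp only [List.mem_cons] at hz ⊢; tauto)) d hd
  intro d hd
  exact key _ (fun x hx => hX x ((Finset.mem_sort (· ≤ ·)).1 hx)) d hd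

end Pool.Agent.N479.RK
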