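import Mathlib

set_option autoImplicit false

/-!
# A counting form of the local lemma (Rosenfeld's method)

Two-colourings of a finite set `S` of variables are represented by the set `A ⊆ S` of variables
with value `true`.  An event `e` has a finite set of variables `vars e` and a family of bad
patterns.  If the weighted number of events at every variable is small, then the number of good
colourings grows by the factor `β` with each new variable; in particular good colourings exist.
-/

namespace Pool.Agent.N479.RK

open Finset

section Rosenfeld

variable {V E : Type*} [DecidableEq V] [DecidableEq E]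

/-- the sets `A ⊆ S` violating no event inside `S` -/
noncomputable def good (F : Finset E) (vars : E → Finset V) (bad : E → Finset V → Prop)
    (S : Finset V) : Finset (Finset V) := by
  classical exact S.powerset.filter (fun A => ∀ e ∈ F, vars e ⊆ S → ¬ bad e (A ∩ vars e))

variable {F : Finset E} {vars : E → Finset V} {bad : E → Finset V → Prop}

lemma mem_good {S A : Finset V} :
    A ∈ good F vars bad S ↔ A ⊆ S ∧ ∀ e ∈ F, vars e ⊆ S → ¬ bad e (A ∩ vars e) := by
  classical
  simp [good]

lemma good_restrict {S S' A : Finset V} (h : S' ⊆ S) (hA : A ∈ good F vars bad S) :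
    A ∩ S' ∈ good F vars bad S' := by
  rw [mem_good] at hA ⊢
  refine ⟨inter_subset_right, fun e he hv hb => hA.2 e he (hv.trans h) ?_⟩
  have : A ∩ S' ∩ vars e = A ∩ vars e := by
    rw [inter_assoc, inter_eq_right.2 hv]
  rwa [this] at hb

lemma good_growth {β : ℝ} (hβ : 1 ≤ β) {n : ℕ}
    (H : ∀ T : Finset V, T.card < n → ∀ v, v ∉ T →
      β * (good F vars bad T).card ≤ (good F vars bad (insert v T)).card) :
    ∀ (k : ℕ) (S' S : Finset V), S' ⊆ S → S.card ≤ n → (S \ S').card = k →
      β ^ k * (good F vars bad S').card ≤ (good F vars bad S).card := by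
  intro k
  induction k with
  | zero =>
    intro S' S hS _ hk
    have : S = S' := by
      apply Subset.antisymm _ hS
      rw [card_eq_zero, sdiff_eq_empty_iff_subset] at hk
      exact hk
    rw [this]; simp
  | succ k ih =>
    intro S' S hS hn hk
    have hne : (S \ S').Nonempty := by
      rw [← card_pos]; omega
    obtain ⟨v, hv⟩ := hne
    rw [mem_sdiff] at hv
    have h1 : S' ⊆ S.erase v := by
      intro x hx
      rw [mem_erase]
      exact ⟨fun h => hv.2 (h ▸ hx), hS hx⟩
    have h2 : (S.erase v).card < n := by
      rw [card_erase_of_mem hv.1]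
      have := card_pos.2 ⟨v, hv.1⟩
      omega
    have h3 : (S.erase v \ S').card = k := by
      have : S.erase v \ S' = (S \ S').erase v := by
        ext x; simp only [mem_sdiff, mem_erase]; tauto
      rw [this, card_erase_of_mem (mem_sdiff.2 hv)]
      omega
    have h4 := ih S' (S.erase v) h1 h2.le h3
    have h5 := H (S.erase v) h2 v (by simp)
    rw [insert_erase hv.1] at h5
    calc β ^ (k + 1) * ((good F vars bad S').card : ℝ)
        = β * (β ^ k * (good F vars bad S').card) := by ring
      _ ≤ β * (good F vars bad (S.erase v)).card :=
          mul_le_mul_of_nonneg_left h4 (by linarith)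
      _ ≤ _ := h5

theorem good_step {β : ℝ} (hβ : 1 ≤ β) (b : E → ℕ)
    (hb : ∀ e ∈ F, ∀ B : Finset (Finset V), (∀ A ∈ B, A ⊆ vars e ∧ bad e A) → B.card ≤ b e)
    (hw : ∀ v, ∑ e ∈ F.filter (fun e => v ∈ vars e),
      (b e : ℝ) * (1 / β) ^ ((vars e).card - 1) ≤ 2 - β) :
    ∀ (n : ℕ) (S : Finset V), S.card = n → ∀ v, v ∉ S →
      β * (good F vars bad S).card ≤ (good F vars bad (insert v S)).card := by
  classical
  intro n
  induction n using Nat.strong_induction_on with
  | _ n ih =>
  intro S hSn v hv
  have hβ0 : (0 : ℝ) < β := by linarith
  have H : ∀ T : Finset V, T.card < n → ∀ v, v ∉ T →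
      β * (good F vars bad T).card ≤ (good F vars bad (insert v T)).card :=
    fun T hT => ih T.card hT T rfl
  have hG := good_growth hβ H
  -- all extensions
  set G := good F vars bad S with hGdef
  set All := (insert v S).powerset.filter (fun A => A ∩ S ∈ G) with hAll
  have hAllcard : All.card = 2 * G.card := by
    have h1 : All = G ∪ G.image (insert v) := by
      ext A
      simp only [hAll, mem_filter, mem_powerset, mem_union, mem_image]
      constructor
      · rintro ⟨h1, h2⟩
        by_cases hvA : v ∈ A
        · right
          refine ⟨A ∩ S, h2, ?_⟩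
          ext x
          simp only [mem_insert, mem_inter]
          constructor
          · rintro (rfl | ⟨h, _⟩)
            · exact hvA
            · exact h
          · intro hx
            rcases mem_insert.1 (h1 hx) with h | h
            · exact Or.inl h
            · exact Or.inr ⟨hx, h⟩
        · left
          have : A ∩ S = A := by
            rw [inter_eq_left]
            intro x hx
            rcases mem_insert.1 (h1 hx) with h | h
            · exact absurd (h ▸ hx) hvA
            · exact h
          rwa [this] at h2
      · rintro (h | ⟨B, hB, rfl⟩)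
        · have hs := (mem_good.1 h).1
          refine ⟨hs.trans (subset_insert _ _), ?_⟩
          rwa [inter_eq_left.2 hs]
        · have hs := (mem_good.1 hB).1
          refine ⟨insert_subset_insert _ hs, ?_⟩
          have : insert v B ∩ S = B := by
            ext x
            simp only [mem_inter, mem_insert]
            constructor
            · rintro ⟨rfl | h, h'⟩
              · exact absurd h' hv
              · exact h
            · intro h
              exact ⟨Or.inr h, hs h⟩
          rwa [this]
    have hdisj : Disjoint G (G.image (insert v)) := by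
      rw [disjoint_left]
      intro A hA hA'
      obtain ⟨B, hB, rfl⟩ := mem_image.1 hA'
      exact hv ((mem_good.1 hA).1 (mem_insert_self _ _))
    have hinj : (G.image (insert v)).card = G.card := by
      apply card_image_of_injOn
      intro A hA B hB hAB
      have hA' := (mem_good.1 (mem_coe.1 hA)).1
      have hB' := (mem_good.1 (mem_coe.1 hB)).1
      have h1 : (insert v A).erase v = (insert v B).erase v := by
        have : insert v A = insert v B := hAB
        rw [this]
      rwa [erase_insert (fun h => hv (hA' h)), erase_insert (fun h => hv (hB' h))] at h1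
    rw [h1, card_union_of_disjoint hdisj, hinj]
    ring
  -- bad extensions
  set Ev := F.filter (fun e => v ∈ vars e) with hEv
  set Bd : E → Finset (Finset V) := fun e =>
    All.filter (fun A => vars e ⊆ insert v S ∧ bad e (A ∩ vars e)) with hBd
  have hcover : All \ (Ev.biUnion Bd) ⊆ good F vars bad (insert v S) := by
    intro A hA
    rw [mem_sdiff, mem_biUnion] at hA
    obtain ⟨hA1, hA2⟩ := hA
    rw [hAll, mem_filter, mem_powerset] at hA1
    rw [mem_good]
    refine ⟨hA1.1, fun e he hve hbe => ?_⟩
    by_cases hve' : v ∈ vars e
    · apply hA2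
      refine ⟨e, ?_, ?_⟩
      · rw [hEv, mem_filter]; exact ⟨he, hve'⟩
      · rw [hBd]
        simp only [mem_filter]
        refine ⟨?_, hve, hbe⟩
        rw [hAll, mem_filter, mem_powerset]; exact hA1
    · have hsub : vars e ⊆ S := by
        intro x hx
        rcases mem_insert.1 (hve hx) with h | h
        · exact absurd (h ▸ hx) hve'
        · exact h
      have := (mem_good.1 hA1.2).2 e he hsub
      apply this
      rwa [inter_assoc, inter_eq_right.2 hsub]
  have hBdcard : ∀ e ∈ Ev, ((Bd e).card : ℝ) ≤
      (b e : ℝ) * (1 / β) ^ ((vars e).card - 1) * G.card := by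
    intro e he
    rw [hEv, mem_filter] at he
    by_cases hsub : vars e ⊆ insert v S
    swap
    · have : Bd e = ∅ := by
        rw [hBd]
        simp only
        rw [filter_eq_empty_iff]
        rintro A _ ⟨h, _⟩
        exact hsub h
      rw [this]
      simp only [card_empty, Nat.cast_zero]
      positivity
    -- injection
    have h1 : (Bd e).card ≤ (good F vars bad (S \ vars e)).card * b e := by
      have hmaps : ∀ A ∈ Bd e, (A ∩ (S \ vars e), A ∩ vars e) ∈
          (good F vars bad (S \ vars e)) ×ˢ ((Bd e).image (fun A => A ∩ vars e)) := by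
        intro A hA
        rw [mem_product]
        refine ⟨?_, mem_image_of_mem _ hA⟩
        have hA' := hA
        rw [hBd] at hA'
        simp only [mem_filter, hAll, mem_powerset] at hA'
        have h2 := good_restrict (S' := S \ vars e) sdiff_subset hA'.1.2
        have : A ∩ S ∩ (S \ vars e) = A ∩ (S \ vars e) := by
          ext x; simp only [mem_inter, mem_sdiff]; tauto
        rwa [this] at h2
      have hinj : Set.InjOn (fun A : Finset V => (A ∩ (S \ vars e), A ∩ vars e)) (Bd e) := by
        intro A hA B hB hAB
        simp only [Prod.mk.injEq] at hAB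
        have hA' := mem_coe.1 hA
        have hB' := mem_coe.1 hB
        rw [hBd] at hA' hB'
        simp only [mem_filter, hAll, mem_powerset] at hA' hB'
        have key : ∀ C : Finset V, C ⊆ insert v S → C = (C ∩ (S \ vars e)) ∪ (C ∩ vars e) := by
          intro C hC
          ext x
          simp only [mem_union, mem_inter, mem_sdiff]
          constructor
          · intro hx
            by_cases hxe : x ∈ vars e
            · exact Or.inr ⟨hx, hxe⟩
            · left
              refine ⟨hx, ?_, hxe⟩
              rcases mem_insert.1 (hC hx) with h | h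
              · exact absurd (h ▸ he.2) hxe
              · exact h
          · rintro (⟨h, _⟩ | ⟨h, _⟩) <;> exact h
        rw [key A hA'.1.1, key B hB'.1.1, hAB.1, hAB.2]
      have h3 := card_le_card_of_injOn _ hmaps hinj
      rw [card_product] at h3
      refine h3.trans (Nat.mul_le_mul_left _ (hb e he.1 _ ?_))
      intro A hA
      obtain ⟨C, hC, rfl⟩ := mem_image.1 hA
      rw [hBd] at hC
      simp only [mem_filter] at hC
      exact ⟨inter_subset_right, hC.2.2⟩
    have h2 : (S \ (S \ vars e)).card = (vars e).card - 1 := by
      have : S \ (S \ vars e) = (vars e).erase v := by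
        ext x
        simp only [mem_sdiff, mem_erase]
        constructor
        · rintro ⟨h3, h4⟩
          have : x ∈ vars e := by
            by_contra h; exact h4 ⟨h3, h⟩
          exact ⟨fun h => hv (h ▸ h3), this⟩
        · rintro ⟨h3, h4⟩
          rcases mem_insert.1 (hsub h4) with h | h
          · exact absurd h h3
          · exact ⟨h, fun h5 => h5.2 h4⟩
      rw [this, card_erase_of_mem he.2]
    have h3 := hG ((vars e).card - 1) (S \ vars e) S sdiff_subset hSn.le h2
    have h4 : ((good F vars bad (S \ vars e)).card : ℝ) ≤
        (1 / β) ^ ((vars e).card - 1) * G.card := by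
      rw [one_div, inv_pow, inv_mul_eq_div, le_div_iff₀ (by positivity), mul_comm]
      exact h3
    calc ((Bd e).card : ℝ) ≤ ((good F vars bad (S \ vars e)).card * b e : ℕ) := by
          exact_mod_cast h1
      _ = (b e : ℝ) * (good F vars bad (S \ vars e)).card := by push_cast; ring
      _ ≤ (b e : ℝ) * ((1 / β) ^ ((vars e).card - 1) * G.card) :=
          mul_le_mul_of_nonneg_left h4 (by positivity)
      _ = _ := by ring
  have hsum : ((Ev.biUnion Bd).card : ℝ) ≤ (2 - β) * G.card := by
    calc ((Ev.biUnion Bd).card : ℝ) ≤ ((∑ e ∈ Ev, (Bd e).card : ℕ) : ℝ) := by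
          exact_mod_cast card_biUnion_le
      _ = ∑ e ∈ Ev, ((Bd e).card : ℝ) := by push_cast; rfl
      _ ≤ ∑ e ∈ Ev, (b e : ℝ) * (1 / β) ^ ((vars e).card - 1) * G.card := sum_le_sum hBdcard
      _ = (∑ e ∈ Ev, (b e : ℝ) * (1 / β) ^ ((vars e).card - 1)) * G.card := by
          rw [sum_mul]
      _ ≤ (2 - β) * G.card := mul_le_mul_of_nonneg_right (hw v) (by positivity)
  have hfin : (All.card : ℝ) ≤ (good F vars bad (insert v S)).card + (Ev.biUnion Bd).card := by
    have h1 : All.card ≤ (All \ (Ev.biUnion Bd)).card + (Ev.biUnion Bd).card := by
      have := card_le_card_sdiff_add_card (s := All) (t := Ev.biUnion Bd)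
      omega
    have h2 := card_le_card hcover
    exact_mod_cast h1.trans (by omega)
  rw [hAllcard] at hfin
  push_cast at hfin
  nlinarith [hfin, hsum]

/-- existence of a colouring avoiding all events -/
theorem exists_good {β : ℝ} (hβ : 1 ≤ β) (b : E → ℕ)
    (hne : ∀ e ∈ F, (vars e).Nonempty)
    (hb : ∀ e ∈ F, ∀ B : Finset (Finset V), (∀ A ∈ B, A ⊆ vars e ∧ bad e A) → B.card ≤ b e)
    (hw : ∀ v, ∑ e ∈ F.filter (fun e => v ∈ vars e),
      (b e : ℝ) * (1 / β) ^ ((vars e).card - 1) ≤ 2 - β) :
    ∃ A : Finset V, ∀ e ∈ F, ¬ bad e (A ∩ vars e) := by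
  classical
  have hstep := good_step hβ b hb hw
  have hpos : ∀ S : Finset V, 0 < (good F vars bad S).card := by
    intro S
    induction S using Finset.induction_on with
    | empty =>
      rw [card_pos]
      refine ⟨∅, ?_⟩
      rw [mem_good]
      refine ⟨Subset.refl _, fun e he h => ?_⟩
      exact absurd (subset_empty.1 h) (hne e he).ne_empty
    | insert v S hv ih =>
      have := hstep S.card S rfl v hv
      have h1 : (0 : ℝ) < (good F vars bad S).card := by exact_mod_cast ih
      have h2 : (0 : ℝ) < (good F vars bad (insert v S)).card := by nlinarith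
      exact_mod_cast h2
  obtain ⟨A, hA⟩ := card_pos.1 (hpos (F.biUnion vars))
  rw [mem_good] at hA
  exact ⟨A, fun e he => hA.2 e he (subset_biUnion_of_mem vars he)⟩

end Rosenfeld

end Pool.Agent.N479.RK
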