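import Mathlib
import Pool.Agent.N479.RK.Rosenfeld

set_option autoImplicit false

/-!
# Colourings of signatures

A signature is the list of letters and lengths of the runs of an up/down word.  We colour the
signatures with two colours such that, for every signature `f` with many runs,

* if many runs have length at least two, then shortening these runs by one gives both colours;
* if there are many zigzags `(U,1) (D,1) (U,1) (D,1)`, then not all zigzags can be contracted (to
  `(U,2) (D,1)` or to `(U,1) (D,2)`, in any way) with results of one colour.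
-/

namespace Pool.Agent.N479.RK

open Finset

/-- signatures -/
abbrev Sig := List (Bool × ℕ)

/-- indices of the long runs -/
def longIdx (f : Sig) : Finset ℕ := (range f.length).filter (fun j => 2 ≤ (f.getD j (true, 0)).2)

/-- shorten the run `j` -/
def decr (f : Sig) (j : ℕ) : Sig := f.modify j (fun p => (p.1, p.2 - 1))

/-- the four runs of a zigzag -/
def z4 : Sig := [(true, 1), (false, 1), (true, 1), (false, 1)]

/-- indices of the zigzags -/
def zig (f : Sig) : Finset ℕ := (range f.length).filter (fun j => (f.drop j).take 4 = z4)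

/-- first contraction of a zigzag -/
def zA (f : Sig) (j : ℕ) : Sig := f.take j ++ (true, 2) :: (false, 1) :: f.drop (j + 4)

/-- second contraction of a zigzag -/
def zB (f : Sig) (j : ℕ) : Sig := f.take j ++ (true, 1) :: (false, 2) :: f.drop (j + 4)

lemma mem_longIdx {f : Sig} {j : ℕ} :
    j ∈ longIdx f ↔ ∃ p, f[j]? = some p ∧ 2 ≤ p.2 := by
  rw [longIdx, mem_filter, mem_range, List.getD_eq_getElem?_getD]
  constructor
  · rintro ⟨h1, h2⟩
    rw [List.getElem?_eq_getElem h1] at h2 ⊢
    exact ⟨_, rfl, h2⟩
  · rintro ⟨p, h1, h2⟩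
    obtain ⟨h3, h4⟩ := List.getElem?_eq_some_iff.1 h1
    rw [h1]
    exact ⟨h3, h2⟩

lemma mem_zig {f : Sig} {j : ℕ} :
    j ∈ zig f ↔ f[j]? = some (true, 1) ∧ f[j+1]? = some (false, 1) ∧
      f[j+2]? = some (true, 1) ∧ f[j+3]? = some (false, 1) := by
  rw [zig, mem_filter, mem_range]
  constructor
  · rintro ⟨h1, h2⟩
    have key : ∀ i < 4, f[j+i]? = z4[i]? := by
      intro i hi
      rw [← h2, List.getElem?_take_of_lt hi, List.getElem?_drop]
    refine ⟨?_, ?_, ?_, ?_⟩
    · simpa [z4] using key 0 (by norm_num)
    · simpa [z4] using key 1 (by norm_num)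
    · simpa [z4] using key 2 (by norm_num)
    · simpa [z4] using key 3 (by norm_num)
  · rintro ⟨h0, h1, h2, h3⟩
    obtain ⟨k0, _⟩ := List.getElem?_eq_some_iff.1 h0
    refine ⟨k0, ?_⟩
    apply List.ext_getElem?
    intro i
    rcases lt_or_ge i 4 with hi | hi
    · rw [List.getElem?_take_of_lt hi, List.getElem?_drop]
      interval_cases i
      · simpa [z4] using h0
      · simpa [z4] using h1
      · simpa [z4] using h2
      · simpa [z4] using h3
    · rw [List.getElem?_eq_none (by simp; omega), List.getElem?_eq_none (by simp [z4]; omega)]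

lemma length_decr (f : Sig) (j : ℕ) : (decr f j).length = f.length := by
  simp [decr]

lemma getElem?_decr (f : Sig) (j i : ℕ) :
    (decr f j)[i]? = if j = i then f[i]?.map (fun p => (p.1, p.2 - 1)) else f[i]? := by
  rw [decr, List.getElem?_modify]
  split_ifs with h
  · simp [h]
  · simp [h]

lemma decr_injOn (f : Sig) : Set.InjOn (decr f) (longIdx f) := by
  intro i hi j hj hij
  by_contra hne
  obtain ⟨p, hp, hp2⟩ := mem_longIdx.1 (mem_coe.1 hi)
  have h1 : (decr f i)[i]? = (decr f j)[i]? := by
    have : decr f i = decr f j := hij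
    rw [this]
  rw [getElem?_decr, getElem?_decr, if_pos rfl, if_neg (fun h => hne h.symm), hp] at h1
  simp only [Option.map_some, Option.some.injEq] at h1
  have h2 := congrArg Prod.snd h1
  simp only at h2
  omega

lemma zig_lt {f : Sig} {j : ℕ} (h : j ∈ zig f) : j + 4 ≤ f.length := by
  obtain ⟨_, _, _, h3⟩ := mem_zig.1 h
  obtain ⟨k, _⟩ := List.getElem?_eq_some_iff.1 h3
  omega

lemma length_zA {f : Sig} {j : ℕ} (h : j ∈ zig f) : (zA f j).length + 2 = f.length := by
  have := zig_lt h
  simp only [zA, List.length_append, List.length_take, List.length_cons, List.length_drop]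
  omega

lemma length_zB {f : Sig} {j : ℕ} (h : j ∈ zig f) : (zB f j).length + 2 = f.length := by
  have := zig_lt h
  simp only [zB, List.length_append, List.length_take, List.length_cons, List.length_drop]
  omega

lemma getElem?_zA_lt {f : Sig} {j i : ℕ} (h : j ∈ zig f) (hi : i < j) :
    (zA f j)[i]? = f[i]? := by
  have := zig_lt h
  rw [zA, List.getElem?_append_left (by simp; omega), List.getElem?_take_of_lt hi]

lemma getElem?_zB_lt {f : Sig} {j i : ℕ} (h : j ∈ zig f) (hi : i < j) :
    (zB f j)[i]? = f[i]? := by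
  have := zig_lt h
  rw [zB, List.getElem?_append_left (by simp; omega), List.getElem?_take_of_lt hi]

lemma getElem?_zA_0 {f : Sig} {j : ℕ} (h : j ∈ zig f) : (zA f j)[j]? = some (true, 2) := by
  have := zig_lt h
  rw [zA, List.getElem?_append_right (by simp)]
  have : j - (f.take j).length = 0 := by simp; omega
  rw [this]; simp

lemma getElem?_zB_0 {f : Sig} {j : ℕ} (h : j ∈ zig f) : (zB f j)[j]? = some (true, 1) := by
  have := zig_lt h
  rw [zB, List.getElem?_append_right (by simp)]
  have : j - (f.take j).length = 0 := by simp; omega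
  rw [this]; simp

lemma getElem?_zA_1 {f : Sig} {j : ℕ} (h : j ∈ zig f) : (zA f j)[j+1]? = some (false, 1) := by
  have := zig_lt h
  rw [zA, List.getElem?_append_right (by simp)]
  have : j + 1 - (f.take j).length = 1 := by simp; omega
  rw [this]; simp

lemma getElem?_zB_1 {f : Sig} {j : ℕ} (h : j ∈ zig f) : (zB f j)[j+1]? = some (false, 2) := by
  have := zig_lt h
  rw [zB, List.getElem?_append_right (by simp)]
  have : j + 1 - (f.take j).length = 1 := by simp; omega
  rw [this]; simp

lemma zig_gap {f : Sig} {i j : ℕ} (hi : i ∈ zig f) (hj : j ∈ zig f) (h : i < j) : i + 2 ≤ j := by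
  by_contra hcon
  have : j = i + 1 := by omega
  subst this
  have h1 := (mem_zig.1 hi).2.1
  have h2 := (mem_zig.1 hj).1
  rw [h1] at h2
  simp at h2

lemma zA_ne_zA {f : Sig} {i j : ℕ} (hi : i ∈ zig f) (hj : j ∈ zig f) (h : i < j) :
    zA f i ≠ zA f j := by
  intro he
  have h1 := getElem?_zA_0 hi
  rw [he, getElem?_zA_lt hj h, (mem_zig.1 hi).1] at h1
  simp at h1

lemma zB_ne_zB {f : Sig} {i j : ℕ} (hi : i ∈ zig f) (hj : j ∈ zig f) (h : i < j) :
    zB f i ≠ zB f j := by
  intro he
  have h1 := getElem?_zB_1 hi
  have := zig_gap hi hj h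
  rw [he, getElem?_zB_lt hj (by omega), (mem_zig.1 hi).2.1] at h1
  simp at h1

lemma zA_ne_zB {f : Sig} {i j : ℕ} (hi : i ∈ zig f) (hj : j ∈ zig f) :
    zA f i ≠ zB f j := by
  intro he
  rcases lt_trichotomy i j with h | h | h
  · have h1 := getElem?_zA_0 hi
    rw [he, getElem?_zB_lt hj h, (mem_zig.1 hi).1] at h1
    simp at h1
  · subst h
    have h1 := getElem?_zA_0 hi
    rw [he, getElem?_zB_0 hj] at h1
    simp at h1
  · have h1 := getElem?_zB_1 hj
    have := zig_gap hj hi h
    rw [← he, getElem?_zA_lt hi (by omega), (mem_zig.1 hj).2.1] at h1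
    simp at h1

lemma zA_injOn (f : Sig) : Set.InjOn (zA f) (zig f) := by
  intro i hi j hj hij
  rcases lt_trichotomy i j with h | h | h
  · exact absurd hij (zA_ne_zA hi hj h)
  · exact h
  · exact absurd hij.symm (zA_ne_zA hj hi h)

lemma zB_injOn (f : Sig) : Set.InjOn (zB f) (zig f) := by
  intro i hi j hj hij
  rcases lt_trichotomy i j with h | h | h
  · exact absurd hij (zB_ne_zB hi hj h)
  · exact h
  · exact absurd hij.symm (zB_ne_zB hj hi h)

/-- lengthen the run `j` -/
def incr (v : Sig) (j : ℕ) : Sig := v.modify j (fun p => (p.1, p.2 + 1))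

/-- insert a zigzag in place of the runs `j`, `j+1` -/
def expd (v : Sig) (j : ℕ) : Sig := v.take j ++ (z4 ++ v.drop (j + 2))

lemma incr_decr {f : Sig} {j : ℕ} (h : j ∈ longIdx f) : incr (decr f j) j = f := by
  obtain ⟨p, hp, hp2⟩ := mem_longIdx.1 h
  apply List.ext_getElem?
  intro i
  rw [incr, List.getElem?_modify, getElem?_decr]
  by_cases hij : j = i
  · subst hij
    simp only [if_true, hp, Option.map_some, Option.map_eq_map]
    congr 1
    ext
    · rfl
    · simp only; omega
  · simp [hij]

lemma expd_eq {f : Sig} {j : ℕ} (h : j ∈ zig f) (a b : Bool × ℕ) :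
    expd (f.take j ++ a :: b :: f.drop (j + 4)) j = f := by
  have h4 := zig_lt h
  have hl : (f.take j).length = j := by simp; omega
  have h1 : (f.take j ++ a :: b :: f.drop (j + 4)).take j = f.take j := by
    rw [List.take_append_of_le_length (by omega), List.take_take, min_self]
  have h2 : (f.take j ++ a :: b :: f.drop (j + 4)).drop (j + 2) = f.drop (j + 4) := by
    rw [List.drop_append, hl, List.drop_of_length_le (by omega)]
    simp
  rw [expd, h1, h2]
  rw [zig, mem_filter] at h
  rw [← h.2]
  conv_rhs => rw [← List.take_append_drop j f, ← List.take_append_drop 4 (f.drop j)]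
  rw [List.drop_drop]

/-- the variables of an event -/
def evars (e : Sig × Bool) : Finset Sig :=
  if e.2 then (longIdx e.1).image (decr e.1)
  else (zig e.1).image (zA e.1) ∪ (zig e.1).image (zB e.1)

/-- the bad patterns of an event -/
def ebad (e : Sig × Bool) (A : Finset Sig) : Prop :=
  if e.2 then ∃ η : Bool, ∀ j ∈ longIdx e.1, decide (decr e.1 j ∈ A) = η
  else ∃ η : Bool, ∀ j ∈ zig e.1, decide (zA e.1 j ∈ A) = η ∨ decide (zB e.1 j ∈ A) = η

/-- the number of bad patterns of an event -/
def ecount (e : Sig × Bool) : ℕ := if e.2 then 2 else 2 * 3 ^ (zig e.1).card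

lemma card_evars_true (f : Sig) : (evars (f, true)).card = (longIdx f).card := by
  simp only [evars, if_true]
  exact card_image_of_injOn (decr_injOn f)

lemma card_evars_false (f : Sig) : (evars (f, false)).card = 2 * (zig f).card := by
  simp only [evars, Bool.false_eq_true, if_false]
  rw [card_union_of_disjoint, card_image_of_injOn (zA_injOn f), card_image_of_injOn (zB_injOn f)]
  · ring
  · rw [disjoint_left]
    intro x hx hx'
    obtain ⟨i, hi, rfl⟩ := mem_image.1 hx
    obtain ⟨j, hj, h⟩ := mem_image.1 hx'
    exact zA_ne_zB hi hj h.symm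

lemma ecount_true (f : Sig) (B : Finset (Finset Sig))
    (hB : ∀ A ∈ B, A ⊆ evars (f, true) ∧ ebad (f, true) A) : B.card ≤ 2 := by
  have hsub : B ⊆ {∅, evars (f, true)} := by
    intro A hA
    obtain ⟨h1, h2⟩ := hB A hA
    simp only [ebad, if_true] at h2
    obtain ⟨η, hη⟩ := h2
    rw [mem_insert, mem_singleton]
    cases η
    · left
      rw [eq_empty_iff_forall_notMem]
      intro x hx
      have hx' := h1 hx
      simp only [evars, if_true] at hx'
      obtain ⟨j, hj, rfl⟩ := mem_image.1 hx'
      have := hη j hj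
      simp [hx] at this
    · right
      apply Subset.antisymm h1
      intro x hx
      simp only [evars, if_true] at hx
      obtain ⟨j, hj, rfl⟩ := mem_image.1 hx
      have := hη j hj
      simpa using this
  exact (card_le_card hsub).trans card_le_two

lemma ecount_half (f : Sig) (η : Bool) (B : Finset (Finset Sig))
    (hB : ∀ A ∈ B, A ⊆ evars (f, false) ∧
      ∀ j ∈ zig f, decide (zA f j ∈ A) = η ∨ decide (zB f j ∈ A) = η) :
    B.card ≤ 3 ^ (zig f).card := by
  classical
  let T : Finset (Bool × Bool) := univ.filter (fun p => p.1 = η ∨ p.2 = η)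
  have hT : T.card = 3 := by
    simp only [T]
    cases η <;> decide
  let φ : Finset Sig → ({x // x ∈ zig f} → Bool × Bool) := fun A j =>
    (decide (zA f j ∈ A), decide (zB f j ∈ A))
  have h1 : ∀ A ∈ B, φ A ∈ Fintype.piFinset (fun _ : {x // x ∈ zig f} => T) := by
    intro A hA
    rw [Fintype.mem_piFinset]
    intro j
    simp only [T, mem_filter, mem_univ, true_and, φ]
    exact (hB A hA).2 j j.2
  have h2 : Set.InjOn φ B := by
    intro A hA A' hA' h
    have key : ∀ x ∈ evars (f, false), (x ∈ A ↔ x ∈ A') := by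
      intro x hx
      simp only [evars, Bool.false_eq_true, if_false, mem_union, mem_image] at hx
      rcases hx with ⟨j, hj, rfl⟩ | ⟨j, hj, rfl⟩
      · have := congrFun h ⟨j, hj⟩
        simp only [φ, Prod.mk.injEq, decide_eq_decide] at this
        exact this.1
      · have := congrFun h ⟨j, hj⟩
        simp only [φ, Prod.mk.injEq, decide_eq_decide] at this
        exact this.2
    ext x
    constructor
    · intro hx; exact (key x ((hB A hA).1 hx)).1 hx
    · intro hx; exact (key x ((hB A' hA').1 hx)).2 hx
  have h3 := card_le_card_of_injOn φ h1 h2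
  rw [Fintype.card_piFinset] at h3
  simpa [hT] using h3

lemma ecount_false (f : Sig) (B : Finset (Finset Sig))
    (hB : ∀ A ∈ B, A ⊆ evars (f, false) ∧ ebad (f, false) A) :
    B.card ≤ 2 * 3 ^ (zig f).card := by
  classical
  have hsub : B ⊆ (B.filter (fun A => ∀ j ∈ zig f,
      decide (zA f j ∈ A) = true ∨ decide (zB f j ∈ A) = true)) ∪
      (B.filter (fun A => ∀ j ∈ zig f,
      decide (zA f j ∈ A) = false ∨ decide (zB f j ∈ A) = false)) := by
    intro A hA
    obtain ⟨h1, h2⟩ := hB A hA
    simp only [ebad, Bool.false_eq_true, if_false] at h2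
    obtain ⟨η, hη⟩ := h2
    rw [mem_union, mem_filter, mem_filter]
    cases η
    · exact Or.inr ⟨hA, hη⟩
    · exact Or.inl ⟨hA, hη⟩
  have h1 := ecount_half f true (B.filter (fun A => ∀ j ∈ zig f,
      decide (zA f j ∈ A) = true ∨ decide (zB f j ∈ A) = true)) (by
    intro A hA
    rw [mem_filter] at hA
    exact ⟨(hB A hA.1).1, hA.2⟩)
  have h2 := ecount_half f false (B.filter (fun A => ∀ j ∈ zig f,
      decide (zA f j ∈ A) = false ∨ decide (zB f j ∈ A) = false)) (by
    intro A hA
    rw [mem_filter] at hA
    exact ⟨(hB A hA.1).1, hA.2⟩)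
  have h3 := (card_le_card hsub).trans (card_union_le _ _)
  omega

end Pool.Agent.N479.RK
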