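import Mathlib
import Pool.Agent.N479.RK.Sig

set_option autoImplicit false

/-!
# Runs of a sequence

A sequence `p :: xs` of naturals with distinct neighbours is cut into its maximal monotone runs.
-/

namespace Pool.Agent.N479.RK

open Finset

/-- a list of runs: each run has a letter (`true` = up) and its list of entries -/
abbrev Runs := List (Bool × List ℕ)

/-- `x` is below `y` (`b = true`) or above `y` (`b = false`) -/
def cmp (b : Bool) (x y : ℕ) : Prop := if b then x < y else y < x

lemma cmp_trans {b : Bool} {x y z : ℕ} (h1 : cmp b x y) (h2 : cmp b y z) : cmp b x z := by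
  cases b <;> simp only [cmp, if_true, if_false, Bool.false_eq_true] at * <;> omega

lemma cmp_decide {b : Bool} {x y : ℕ} (h : cmp b x y) : decide (x < y) = b := by
  cases b <;> simp only [cmp, if_true, if_false, Bool.false_eq_true] at * <;> simp <;> omega

/-- the runs of `p :: xs` (the entry `p` is not part of any run) -/
def dcp : ℕ → List ℕ → Runs
  | _, [] => []
  | p, x :: xs =>
    match dcp x xs with
    | [] => [(decide (p < x), [x])]
    | (b, R) :: L =>
      if decide (p < x) = b then (b, x :: R) :: L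
      else (decide (p < x), [x]) :: (b, R) :: L

/-- the list of entries -/
def fl (L : Runs) : List ℕ := L.flatMap (fun r => r.2)

/-- `L` is the list of runs of `p :: fl L` -/
inductive Valid : ℕ → Runs → Prop
  | nil (p : ℕ) : Valid p []
  | new (p x : ℕ) (b : Bool) (L : Runs) : cmp b p x → (L.head?.map (fun r => r.1) ≠ some b) →
      Valid x L → Valid p ((b, [x]) :: L)
  | ext (p x : ℕ) (b : Bool) (R : List ℕ) (L : Runs) : cmp b p x → Valid x ((b, R) :: L) →
      Valid p ((b, x :: R) :: L)

lemma fl_nil : fl [] = [] := rfl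

lemma fl_cons (b : Bool) (R : List ℕ) (L : Runs) : fl ((b, R) :: L) = R ++ fl L := by
  simp [fl]

lemma fl_append (A B : Runs) : fl (A ++ B) = fl A ++ fl B := by
  simp [fl]

lemma dcp_fl {p : ℕ} {L : Runs} (h : Valid p L) : dcp p (fl L) = L := by
  induction h with
  | nil p => rfl
  | new p x b L h1 h2 h3 ih =>
    rw [fl_cons, List.singleton_append, dcp, ih]
    have h4 := cmp_decide h1
    rcases L with _ | ⟨⟨b', R⟩, L⟩
    · simp [h4]
    · simp only [List.head?_cons, Option.map_some, ne_eq, Option.some.injEq] at h2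
      simp only [h4]
      rw [if_neg (fun h => h2 h.symm)]
  | ext p x b R L h1 h2 ih =>
    rw [fl_cons, List.cons_append, dcp, ← fl_cons b, ih]
    have h4 := cmp_decide h1
    simp [h4]

/-- all neighbours in the list are distinct -/
lemma valid_dcp : ∀ (xs : List ℕ) (p : ℕ), (p :: xs).IsChain (· ≠ ·) →
    Valid p (dcp p xs) ∧ fl (dcp p xs) = xs := by
  intro xs
  induction xs with
  | nil => intro p _; exact ⟨Valid.nil p, rfl⟩
  | cons x xs ih =>
    intro p h
    rw [List.isChain_cons_cons] at h
    obtain ⟨h1, h2⟩ := ih x h.2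
    have h3 : cmp (decide (p < x)) p x := by
      rcases lt_or_gt_of_ne h.1 with h4 | h4
      · simp [cmp, h4]
      · have : ¬ p < x := by omega
        simp [cmp, this, h4]
    rw [dcp]
    rcases hd : dcp x xs with _ | ⟨⟨b, R⟩, L⟩
    · rw [hd] at h1 h2
      simp only
      refine ⟨Valid.new _ _ _ _ h3 (by simp) h1, ?_⟩
      rw [fl_cons, h2]; rfl
    · rw [hd] at h1 h2
      simp only
      split_ifs with hb
      · refine ⟨Valid.ext _ _ _ _ _ (hb ▸ h3) h1, ?_⟩
        rw [fl_cons, List.cons_append, ← fl_cons b, h2]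
      · refine ⟨Valid.new _ _ _ _ h3 ?_ h1, ?_⟩
        · simp only [List.head?_cons, Option.map_some, ne_eq, Option.some.injEq]
          exact fun h => hb h.symm
        · rw [fl_cons, h2]; rfl

/-- change a tail of a list of runs -/
lemma valid_context : ∀ (A : Runs) (p : ℕ) (M : Runs), Valid p (A ++ M) →
    ∃ (S : List ℕ) (q : ℕ), p :: fl A = S ++ [q] ∧ Valid q M ∧
      ∀ M' : Runs, Valid q M' → M'.head?.map (fun r => r.1) = M.head?.map (fun r => r.1) →
        Valid p (A ++ M') := by
  intro A
  induction A with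
  | nil =>
    intro p M h
    exact ⟨[], p, by simp [fl], h, fun M' h' _ => h'⟩
  | cons a A ih =>
    obtain ⟨b, R⟩ := a
    induction R with
    | nil =>
      intro p M h
      cases h
    | cons x R ihR =>
      intro p M h
      rw [List.cons_append] at h
      cases h with
      | new _ _ _ _ h1 h2 h3 =>
        obtain ⟨S, q, h4, h5, h6⟩ := ih x M h3
        refine ⟨p :: S, q, ?_, h5, fun M' hM' hh => ?_⟩
        · rw [fl_cons, List.singleton_append, h4]; rfl
        · rw [List.cons_append]
          refine Valid.new _ _ _ _ h1 ?_ (h6 M' hM' hh)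
          rcases A with _ | ⟨a, A⟩
          · simpa [hh] using h2
          · simpa using h2
      | ext _ _ _ _ _ h1 h2 =>
        obtain ⟨S, q, h4, h5, h6⟩ := ihR x M (by rw [List.cons_append]; exact h2)
        refine ⟨p :: S, q, ?_, h5, fun M' hM' hh => ?_⟩
        · rw [fl_cons] at h4 ⊢
          rw [List.cons_append, h4]; rfl
        · rw [List.cons_append]
          have := h6 M' hM' hh
          rw [List.cons_append] at this
          exact Valid.ext _ _ _ _ _ h1 this

/-- delete an entry which is not the last entry of its run -/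
lemma valid_interior : ∀ (R1 : List ℕ) (q x : ℕ) (R2 : List ℕ) (b : Bool) (B : Runs), R2 ≠ [] →
    Valid q ((b, R1 ++ x :: R2) :: B) →
    Valid q ((b, R1 ++ R2) :: B) ∧
    ∃ (S' : List ℕ) (e y : ℕ) (R2' : List ℕ), q :: R1 = S' ++ [e] ∧ R2 = y :: R2' ∧
      cmp b e x ∧ cmp b x y := by
  intro R1
  induction R1 with
  | nil =>
    intro q x R2 b B hR2 h
    rw [List.nil_append] at h ⊢
    rcases R2 with _ | ⟨y, R2⟩
    · exact absurd rfl hR2
    cases h with
    | ext _ _ _ _ _ h1 h2 =>
      have h3 : cmp b x y ∧ Valid q ((b, y :: R2) :: B) := by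
        cases h2 with
        | new _ _ _ _ h4 h5 h6 => exact ⟨h4, Valid.new _ _ _ _ (cmp_trans h1 h4) h5 h6⟩
        | ext _ _ _ _ _ h4 h5 => exact ⟨h4, Valid.ext _ _ _ _ _ (cmp_trans h1 h4) h5⟩
      exact ⟨h3.2, [], q, y, R2, rfl, rfl, h1, h3.1⟩
  | cons z R1 ih =>
    intro q x R2 b B hR2 h
    rw [List.cons_append] at h ⊢
    generalize hT : R1 ++ x :: R2 = T at h
    cases h with
    | new _ _ _ _ h1 h2 h3 => simp at hT
    | ext _ _ _ _ _ h1 h2 =>
      rw [← hT] at h2
      obtain ⟨h3, S', e, y, R2', h4, h5, h6, h7⟩ := ih z x R2 b B hR2 h2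
      exact ⟨Valid.ext _ _ _ _ _ h1 h3, q :: S', e, y, R2', by rw [h4]; rfl, h5, h6, h7⟩

/-- contract a zigzag -/
lemma valid_zigzag {q x1 x2 x3 x4 : ℕ} {B : Runs}
    (h : Valid q ((true, [x1]) :: (false, [x2]) :: (true, [x3]) :: (false, [x4]) :: B)) :
    q < x1 ∧ x2 < x1 ∧ x2 < x3 ∧ x4 < x3 ∧
    (x1 < x3 → Valid q ((true, [x1, x3]) :: (false, [x4]) :: B)) ∧
    (x3 < x1 → Valid q ((true, [x1]) :: (false, [x3, x4]) :: B)) := by
  cases h with
  | ext _ _ _ _ _ _ h => cases h
  | new _ _ _ _ h1 _ h =>
  cases h with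
  | ext _ _ _ _ _ _ h => cases h
  | new _ _ _ _ h2 _ h =>
  cases h with
  | ext _ _ _ _ _ _ h => cases h
  | new _ _ _ _ h3 h3' h =>
  have h' := h
  cases h with
  | ext _ _ _ _ _ _ h => cases h
  | new _ _ _ _ h4 h4' h5 =>
  simp only [cmp, if_true, if_false, Bool.false_eq_true] at h1 h2 h3 h4
  refine ⟨h1, h2, h3, h4, fun h6 => ?_, fun h6 => ?_⟩
  · apply Valid.ext
    · simp only [cmp, if_true]; exact h1
    · apply Valid.new
      · simp only [cmp, if_true]; exact h6
      · exact h3'
      · exact h'
  · apply Valid.new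
    · simp only [cmp, if_true]; exact h1
    · simp
    · apply Valid.ext
      · simp only [cmp, Bool.false_eq_true, if_false]; exact h6
      · exact h'

/-- the signature of a list of runs -/
def sig (L : Runs) : Sig := L.map (fun r => (r.1, r.2.length))

lemma length_sig (L : Runs) : (sig L).length = L.length := by simp [sig]

lemma sig_append (A B : Runs) : sig (A ++ B) = sig A ++ sig B := by simp [sig]

lemma sig_cons (b : Bool) (R : List ℕ) (L : Runs) : sig ((b, R) :: L) = (b, R.length) :: sig L := by
  simp [sig]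

/-- runs are nonempty -/
lemma valid_pos {p : ℕ} {L : Runs} (h : Valid p L) : ∀ r ∈ L, 1 ≤ r.2.length := by
  induction h with
  | nil p => simp
  | new p x b L h1 h2 h3 ih =>
    intro r hr
    rcases List.mem_cons.1 hr with rfl | hr
    · simp
    · exact ih r hr
  | ext p x b R L h1 h2 ih =>
    intro r hr
    rcases List.mem_cons.1 hr with rfl | hr
    · simp
    · exact ih r (List.mem_cons_of_mem _ hr)

/-- the letters alternate -/
lemma valid_alt {p : ℕ} {L : Runs} (h : Valid p L) :
    ∀ i : ℕ, ∀ r r' : Bool × List ℕ, L[i]? = some r → L[i+1]? = some r' → r'.1 ≠ r.1 := by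
  induction h with
  | nil p => simp
  | new p x b L h1 h2 h3 ih =>
    intro i r r' hr hr'
    cases i with
    | zero =>
      simp only [List.getElem?_cons_zero, Option.some.injEq] at hr
      simp only [zero_add, List.getElem?_cons_succ] at hr'
      rw [List.head?_eq_getElem?, hr'] at h2
      rw [← hr]
      simpa using h2
    | succ i =>
      simp only [List.getElem?_cons_succ] at hr hr'
      exact ih i r r' hr hr'
  | ext p x b R L h1 h2 ih =>
    intro i r r' hr hr'
    cases i with
    | zero =>
      simp only [List.getElem?_cons_zero, Option.some.injEq] at hr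
      simp only [zero_add, List.getElem?_cons_succ] at hr'
      have := ih 0 (b, R) r' (by simp) (by simpa using hr')
      rw [← hr]
      exact this
    | succ i =>
      simp only [List.getElem?_cons_succ] at hr hr'
      exact ih (i + 1) r r' (by simpa using hr) (by simpa using hr')

/-- the entries of a run are distinct -/
lemma valid_nodup {p : ℕ} {L : Runs} (h : Valid p L) : ∀ r ∈ L, r.2.Nodup := by
  have key : ∀ {p : ℕ} {L : Runs}, Valid p L → ∀ b R L', L = (b, R) :: L' →
      ∀ x ∈ R, cmp b p x := by
    intro p L h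
    induction h with
    | nil p => intro b R L' h; simp at h
    | new p x b L h1 h2 h3 ih =>
      intro b' R L' h y hy
      simp only [List.cons.injEq, Prod.mk.injEq] at h
      obtain ⟨⟨rfl, rfl⟩, rfl⟩ := h
      rw [List.mem_singleton] at hy
      rwa [hy]
    | ext p x b R L h1 h2 ih =>
      intro b' R' L' h y hy
      simp only [List.cons.injEq, Prod.mk.injEq] at h
      obtain ⟨⟨rfl, rfl⟩, rfl⟩ := h
      rcases List.mem_cons.1 hy with rfl | hy
      · exact h1
      · exact cmp_trans h1 (ih _ _ _ rfl y hy)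
  induction h with
  | nil p => simp
  | new p x b L h1 h2 h3 ih =>
    intro r hr
    rcases List.mem_cons.1 hr with rfl | hr
    · simp
    · exact ih r hr
  | ext p x b R L h1 h2 ih =>
    intro r hr
    rcases List.mem_cons.1 hr with rfl | hr
    · rw [List.nodup_cons]
      refine ⟨fun hx => ?_, ih (b, R) (by simp)⟩
      have := key h2 b R L rfl x hx
      cases b <;> simp [cmp] at this
    · exact ih r (List.mem_cons_of_mem _ hr)

/-- Many long runs or many zigzags. -/
lemma long_or_zig {p : ℕ} {L : Runs} (h : Valid p L) (h30 : 30 ≤ (sig L).length)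
    (hJ : ¬ (sig L).length ≤ 16 * (longIdx (sig L)).card) :
    (sig L).length ≤ 10 * (zig (sig L)).card := by
  set f := sig L with hf
  set r := f.length with hr
  have hget : ∀ i < r, ∃ b R, L[i]? = some (b, R) ∧ f[i]? = some (b, R.length) := by
    intro i hi
    have hiL : i < L.length := by rw [hr, hf, length_sig] at hi; exact hi
    refine ⟨(L[i]).1, (L[i]).2, ?_, ?_⟩
    · rw [List.getElem?_eq_getElem hiL]
    · rw [hf, sig, List.getElem?_map, List.getElem?_eq_getElem hiL]; rfl
  have hone : ∀ i < r, i ∉ longIdx f → ∃ b, f[i]? = some (b, 1) := by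
    intro i hi hn
    obtain ⟨b, R, h1, h2⟩ := hget i hi
    refine ⟨b, ?_⟩
    have h3 : ¬ 2 ≤ R.length := fun h4 => hn (mem_longIdx.2 ⟨_, h2, h4⟩)
    have h4 := valid_pos h (b, R) (List.mem_of_getElem? h1)
    have h5 : R.length = 1 := by simp only at h4; omega
    rw [h2, h5]
  have halt : ∀ i b b' a a', f[i]? = some (b, a) → f[i+1]? = some (b', a') → b' = !b := by
    intro i b b' a a' h1 h2
    have hi : i < r := (List.getElem?_eq_some_iff.1 h1).1
    have hi' : i + 1 < r := (List.getElem?_eq_some_iff.1 h2).1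
    obtain ⟨c, R, h3, h4⟩ := hget i hi
    obtain ⟨c', R', h5, h6⟩ := hget (i + 1) hi'
    have h7 := valid_alt h i _ _ h3 h5
    rw [h4] at h1
    rw [h6] at h2
    simp only [Option.some.injEq, Prod.mk.injEq] at h1 h2
    simp only at h7
    rw [← h1.1, ← h2.1]
    cases c <;> cases c' <;> simp_all
  -- in a block of five short runs there is a zigzag
  have hblock : ∀ i, 5 * i + 4 < r → (∀ t < 5, 5 * i + t ∉ longIdx f) →
      5 * i ∈ zig f ∨ 5 * i + 1 ∈ zig f := by
    intro i hi hn
    obtain ⟨b0, h0⟩ := hone (5 * i) (by omega) (by simpa using hn 0 (by norm_num))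
    obtain ⟨b1, h1⟩ := hone (5 * i + 1) (by omega) (hn 1 (by norm_num))
    obtain ⟨b2, h2⟩ := hone (5 * i + 2) (by omega) (hn 2 (by norm_num))
    obtain ⟨b3, h3⟩ := hone (5 * i + 3) (by omega) (hn 3 (by norm_num))
    obtain ⟨b4, h4⟩ := hone (5 * i + 4) (by omega) (hn 4 (by norm_num))
    have e1 := halt _ _ _ _ _ h0 h1
    have e2 := halt _ _ _ _ _ h1 h2
    have e3 := halt _ _ _ _ _ h2 h3
    have e4 := halt _ _ _ _ _ h3 h4
    subst e4 e3 e2 e1
    cases b0
    · right
      rw [mem_zig]
      exact ⟨h1, h2, h3, h4⟩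
    · left
      rw [mem_zig]
      exact ⟨h0, h1, h2, h3⟩
  set J := longIdx f with hJdef
  have hcard : (range (r / 5) \ J.image (fun j => j / 5)).card ≤ (zig f).card := by
    classical
    let φ : ℕ → ℕ := fun i => if 5 * i ∈ zig f then 5 * i else 5 * i + 1
    apply card_le_card_of_injOn φ
    · intro i hi
      rw [mem_coe, mem_sdiff, mem_range] at hi
      have h1 : 5 * i + 4 < r := by omega
      have h2 : ∀ t < 5, 5 * i + t ∉ J := by
        intro t ht hJt
        apply hi.2
        rw [mem_image]
        exact ⟨5 * i + t, hJt, by omega⟩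
      simp only [φ, mem_coe]
      split_ifs with h3
      · exact h3
      · exact (hblock i h1 h2).resolve_left h3
    · intro i hi j hj hij
      simp only [φ] at hij
      split_ifs at hij <;> omega
  have h1 : r / 5 ≤ (range (r / 5) \ J.image (fun j => j / 5)).card + J.card := by
    have h2 := card_le_card_sdiff_add_card (s := range (r / 5)) (t := J.image (fun j => j / 5))
    rw [card_range] at h2
    have h3 := card_image_le (s := J) (f := fun j => j / 5)
    omega
  omega

end Pool.Agent.N479.RK
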