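import Mathlib
import Pool.Agent.N479.RK.Runs

set_option autoImplicit false

/-!
# The label set of a list of runs
-/

namespace Pool.Agent.N479.RK

open Finset

/-- the entry lists of the runs of length at least three -/
def longs (L : Runs) : List (List ℕ) := (L.filter (fun r => decide (3 ≤ r.2.length))).map (fun r => r.2)

/-- the label set: all entries of long runs except for the last three of each run; the entries of
the `t`-th long run are shifted by `N * t` -/
def Yl (N : ℕ) : ℕ → List (List ℕ) → Finset ℕ
  | _, [] => ∅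
  | t, R :: Ls => (R.take (R.length - 3)).toFinset.image (fun x => x + N * t) ∪ Yl N (t + 1) Ls

lemma longs_append (A B : Runs) : longs (A ++ B) = longs A ++ longs B := by
  simp [longs]

lemma longs_cons_long {b : Bool} {R : List ℕ} {L : Runs} (h : 3 ≤ R.length) :
    longs ((b, R) :: L) = R :: longs L := by
  simp [longs, h]

lemma longs_cons_short {b : Bool} {R : List ℕ} {L : Runs} (h : ¬ 3 ≤ R.length) :
    longs ((b, R) :: L) = longs L := by
  rw [longs, List.filter_cons_of_neg (by simpa using h)]
  rfl

lemma length_longs_le (L : Runs) : (longs L).length ≤ L.length := by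
  rw [longs, List.length_map]
  exact List.length_filter_le _ _

lemma longs_split {L : Runs} {A : List (List ℕ)} {R : List ℕ} {B : List (List ℕ)}
    (h : longs L = A ++ R :: B) : ∃ A' b B', L = A' ++ (b, R) :: B' ∧ longs A' = A ∧
      longs B' = B ∧ 3 ≤ R.length := by
  induction L generalizing A with
  | nil => simp [longs] at h
  | cons r L ih =>
    obtain ⟨b, S⟩ := r
    by_cases hS : 3 ≤ S.length
    · rw [longs_cons_long hS] at h
      cases A with
      | nil =>
        simp only [List.nil_append, List.cons.injEq] at h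
        obtain ⟨rfl, h⟩ := h
        exact ⟨[], b, L, rfl, rfl, h, hS⟩
      | cons a A =>
        simp only [List.cons_append, List.cons.injEq] at h
        obtain ⟨rfl, h⟩ := h
        obtain ⟨A', b', B', h1, h2, h3, h4⟩ := ih h
        refine ⟨(b, S) :: A', b', B', by rw [h1]; rfl, ?_, h3, h4⟩
        rw [longs_cons_long hS, h2]
    · rw [longs_cons_short hS] at h
      obtain ⟨A', b', B', h1, h2, h3, h4⟩ := ih h
      refine ⟨(b, S) :: A', b', B', by rw [h1]; rfl, ?_, h3, h4⟩
      rw [longs_cons_short hS, h2]

lemma Yl_append (N : ℕ) : ∀ (A : List (List ℕ)) (t : ℕ) (B : List (List ℕ)),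
    Yl N t (A ++ B) = Yl N t A ∪ Yl N (t + A.length) B := by
  intro A
  induction A with
  | nil => intro t B; simp [Yl]
  | cons R A ih =>
    intro t B
    rw [List.cons_append, Yl, ih, Yl, union_assoc, List.length_cons]
    congr 3
    omega

lemma mem_Yl {N : ℕ} : ∀ {Ls : List (List ℕ)} {t y : ℕ}, y ∈ Yl N t Ls →
    ∃ A R B x, Ls = A ++ R :: B ∧ x ∈ R.take (R.length - 3) ∧ y = x + N * (t + A.length) := by
  intro Ls
  induction Ls with
  | nil => intro t y h; simp [Yl] at h
  | cons R Ls ih =>
    intro t y h
    rw [Yl, mem_union] at h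
    rcases h with h | h
    · obtain ⟨x, hx, rfl⟩ := mem_image.1 h
      rw [List.mem_toFinset] at hx
      exact ⟨[], R, Ls, x, rfl, hx, by simp⟩
    · obtain ⟨A, R', B, x, h1, h2, h3⟩ := ih h
      refine ⟨R :: A, R', B, x, by rw [h1]; rfl, h2, ?_⟩
      rw [h3, List.length_cons]
      congr 2
      omega

lemma Yl_range {N : ℕ} {Ls : List (List ℕ)} (hN : ∀ R ∈ Ls, ∀ x ∈ R, x < N) {t y : ℕ}
    (h : y ∈ Yl N t Ls) : N * t ≤ y ∧ y < N * (t + Ls.length) := by
  obtain ⟨A, R, B, x, h1, h2, h3⟩ := mem_Yl h
  have h4 : x < N := hN R (by rw [h1]; simp) x (List.mem_of_mem_take h2)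
  have h5 : A.length + 1 ≤ Ls.length := by rw [h1]; simp
  rw [h3]
  constructor
  · have : N * t ≤ N * (t + A.length) := Nat.mul_le_mul_left _ (by omega)
    omega
  · have : N * (t + A.length + 1) ≤ N * (t + Ls.length) := Nat.mul_le_mul_left _ (by omega)
    have h6 : N * (t + A.length + 1) = N * (t + A.length) + N := by ring
    omega

lemma card_Yl {N : ℕ} : ∀ {Ls : List (List ℕ)} (t : ℕ), (∀ R ∈ Ls, ∀ x ∈ R, x < N) →
    (∀ R ∈ Ls, R.Nodup) → (Yl N t Ls).card = (Ls.map (fun R => R.length - 3)).sum := by
  intro Ls
  induction Ls with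
  | nil => intro t _ _; simp [Yl]
  | cons R Ls ih =>
    intro t hN hnd
    have hN' : ∀ R ∈ Ls, ∀ x ∈ R, x < N := fun R' h => hN R' (List.mem_cons_of_mem _ h)
    rw [Yl, card_union_of_disjoint, ih (t + 1) hN' (fun R' h => hnd R' (List.mem_cons_of_mem _ h)),
      card_image_of_injective _ (fun a b h => by simpa using h),
      List.toFinset_card_of_nodup ((hnd R (by simp)).sublist (List.take_sublist _ _))]
    · simp
    · rw [disjoint_left]
      intro y hy hy'
      obtain ⟨x, hx, rfl⟩ := mem_image.1 hy
      rw [List.mem_toFinset] at hx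
      have h1 := hN R (by simp) x (List.mem_of_mem_take hx)
      have h2 := (Yl_range hN' hy').1
      have h3 : N * (t + 1) = N * t + N := by ring
      omega

/-- deleting an entry deletes one label -/
lemma Yl_erase {N : ℕ} {A B : List (List ℕ)} {R1 R2 : List ℕ} {x t : ℕ} (h3 : 3 ≤ R2.length)
    (hN : ∀ R ∈ A ++ (R1 ++ x :: R2) :: B, ∀ z ∈ R, z < N)
    (hnd : (R1 ++ x :: R2).Nodup) :
    Yl N t (A ++ (R1 ++ R2) :: B) =
      (Yl N t (A ++ (R1 ++ x :: R2) :: B)).erase (x + N * (t + A.length)) := by
  have hx : x < N := hN (R1 ++ x :: R2) (by simp) x (by simp)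
  have hA : x + N * (t + A.length) ∉ Yl N t A := by
    intro h
    have := (Yl_range (fun R hR => hN R (by simp [hR])) h).2
    omega
  have hB : x + N * (t + A.length) ∉ Yl N (t + A.length + 1) B := by
    intro h
    have := (Yl_range (fun R hR => hN R (by simp [hR])) h).1
    have h4 : N * (t + A.length + 1) = N * (t + A.length) + N := by ring
    omega
  have h1 : (R1 ++ R2).take ((R1 ++ R2).length - 3) = R1 ++ R2.take (R2.length - 3) := by
    rw [List.take_append, List.length_append]
    rw [List.take_of_length_le (by omega)]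
    congr 2
    omega
  have h2 : (R1 ++ x :: R2).take ((R1 ++ x :: R2).length - 3) =
      R1 ++ x :: R2.take (R2.length - 3) := by
    rw [List.take_append, List.length_append, List.length_cons]
    rw [List.take_of_length_le (by omega)]
    have : R1.length + (R2.length + 1) - 3 - R1.length = (R2.length - 3) + 1 := by omega
    rw [this, List.take_succ_cons]
  have hx1 : x ∉ R1 := by
    intro h
    have := (List.nodup_append.1 hnd).2.2 x h x (by simp)
    exact this rfl
  have hx2 : x ∉ R2 := by
    have := (List.nodup_append.1 hnd).2.1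
    rw [List.nodup_cons] at this
    exact this.1
  rw [Yl_append, Yl_append, Yl, Yl, h1, h2]
  ext y
  simp only [mem_union, mem_erase, mem_image, List.mem_toFinset, List.mem_append, List.mem_cons]
  constructor
  · rintro (h | ⟨z, hz, rfl⟩ | h)
    · exact ⟨fun he => hA (he ▸ h), Or.inl h⟩
    · refine ⟨?_, Or.inr (Or.inl ⟨z, ?_, rfl⟩)⟩
      · intro he
        have : z = x := by omega
        subst this
        rcases hz with hz | hz
        · exact hx1 hz
        · exact hx2 (List.mem_of_mem_take hz)
      · tauto
    · exact ⟨fun he => hB (he ▸ h), Or.inr (Or.inr h)⟩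
  · rintro ⟨hne, h | ⟨z, hz, rfl⟩ | h⟩
    · exact Or.inl h
    · right; left
      refine ⟨z, ?_, rfl⟩
      rcases hz with hz | rfl | hz
      · exact Or.inl hz
      · exact absurd rfl hne
      · exact Or.inr hz
    · exact Or.inr (Or.inr h)

/-- truncate all lengths at three -/
def red (f : Sig) : Sig := f.map (fun p => (p.1, min p.2 3))

lemma length_red (f : Sig) : (red f).length = f.length := by simp [red]

lemma getElem?_red (f : Sig) (i : ℕ) : (red f)[i]? = f[i]?.map (fun p => (p.1, min p.2 3)) := by
  rw [red, List.getElem?_map]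

lemma zig_red (f : Sig) : zig (red f) = zig f := by
  have key : ∀ (i : ℕ) (b : Bool), (red f)[i]? = some (b, 1) ↔ f[i]? = some (b, 1) := by
    intro i b
    rw [getElem?_red]
    rcases h : f[i]? with _ | ⟨c, a⟩
    · simp
    · simp only [Option.map_some, Option.some.injEq, Prod.mk.injEq]
      constructor
      · rintro ⟨h1, h2⟩; exact ⟨h1, by omega⟩
      · rintro ⟨h1, h2⟩; exact ⟨h1, by omega⟩
  ext j
  rw [mem_zig, mem_zig, key, key, key, key]

lemma red_zA (f : Sig) (j : ℕ) : red (zA f j) = zA (red f) j := by
  simp only [red, zA, List.map_append, List.map_take, List.map_cons, List.map_drop]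
  norm_num

lemma red_zB (f : Sig) (j : ℕ) : red (zB f j) = zB (red f) j := by
  simp only [red, zB, List.map_append, List.map_take, List.map_cons, List.map_drop]
  norm_num

lemma red_append (f g : Sig) : red (f ++ g) = red f ++ red g := by simp [red]

lemma red_cons (b : Bool) (a : ℕ) (f : Sig) : red ((b, a) :: f) = (b, min a 3) :: red f := by
  simp [red]

lemma length_fl (L : Runs) : (fl L).length = (L.map (fun r => r.2.length)).sum := by
  induction L with
  | nil => rfl
  | cons r L ih =>
    obtain ⟨b, R⟩ := r
    rw [fl_cons, List.length_append, ih]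
    simp

/-- most entries give labels -/
lemma length_fl_le (L : Runs) :
    (fl L).length ≤ ((longs L).map (fun R => R.length - 3)).sum + 3 * L.length := by
  induction L with
  | nil => simp [fl]
  | cons r L ih =>
    obtain ⟨b, R⟩ := r
    rw [fl_cons, List.length_append, List.length_cons]
    by_cases hR : 3 ≤ R.length
    · rw [longs_cons_long hR, List.map_cons, List.sum_cons]
      omega
    · rw [longs_cons_short hR]
      omega

lemma longs_mem {L : Runs} {R : List ℕ} (h : R ∈ longs L) : ∃ b, (b, R) ∈ L := by
  rw [longs, List.mem_map] at h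
  obtain ⟨⟨b, S⟩, h1, h2⟩ := h
  simp only at h2
  subst h2
  exact ⟨b, (List.mem_filter.1 h1).1⟩

end Pool.Agent.N479.RK
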