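import Mathlib
import Pool.Agent.N479.RK.Sig

set_option autoImplicit false

/-!
# Existence of the colouring of signatures
-/

namespace Pool.Agent.N479.RK

open Finset

/-- there is a threshold -/
lemma exists_threshold : ∃ r0 : ℕ, 30 ≤ r0 ∧ ∀ r : ℕ, r0 ≤ r + 2 →
    (r : ℝ) * (63 / 64 : ℝ) ^ r ≤ 1 / 60 := by
  have h := tendsto_pow_const_mul_const_pow_of_abs_lt_one 1 (r := (63 / 64 : ℝ))
    (by rw [abs_of_pos] <;> norm_num)
  have h2 := h.eventually (gt_mem_nhds (show (0 : ℝ) < 1 / 60 by norm_num))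
  rw [Filter.eventually_atTop] at h2
  obtain ⟨a, ha⟩ := h2
  refine ⟨a + 30, by omega, fun r hr => ?_⟩
  have := ha r (by omega)
  rw [pow_one] at this
  exact this.le

/-- the family of events of length at least `r0` -/
def events (r0 : ℕ) (𝓕 : Finset Sig) : Finset (Sig × Bool) :=
  (𝓕.filter (fun f => r0 ≤ f.length ∧ f.length ≤ 16 * (longIdx f).card)).image (fun f => (f, true)) ∪
  (𝓕.filter (fun f => r0 ≤ f.length ∧ f.length ≤ 10 * (zig f).card)).image (fun f => (f, false))

lemma mem_events_true {r0 : ℕ} {𝓕 : Finset Sig} {f : Sig} :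
    (f, true) ∈ events r0 𝓕 ↔ f ∈ 𝓕 ∧ r0 ≤ f.length ∧ f.length ≤ 16 * (longIdx f).card := by
  simp [events]

lemma mem_events_false {r0 : ℕ} {𝓕 : Finset Sig} {f : Sig} :
    (f, false) ∈ events r0 𝓕 ↔ f ∈ 𝓕 ∧ r0 ≤ f.length ∧ f.length ≤ 10 * (zig f).card := by
  simp [events]

lemma weight_true {r0 : ℕ} (h30 : 30 ≤ r0) {𝓕 : Finset Sig} {f : Sig}
    (h : (f, true) ∈ events r0 𝓕) {v : Sig} (hv : v ∈ evars (f, true)) :
    (ecount (f, true) : ℝ) * (1 / (15 / 8 : ℝ)) ^ ((evars (f, true)).card - 1) ≤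
      15 / 4 * (63 / 64 : ℝ) ^ v.length ∧ r0 ≤ v.length := by
  obtain ⟨_, h1, h2⟩ := mem_events_true.1 h
  have hlen : v.length = f.length := by
    simp only [evars, if_true, mem_image] at hv
    obtain ⟨j, _, rfl⟩ := hv
    exact length_decr f j
  refine ⟨?_, by omega⟩
  rw [card_evars_true]
  simp only [ecount, if_true]
  set m := (longIdx f).card with hm
  obtain ⟨k, hk⟩ : ∃ k, m = k + 1 := ⟨m - 1, by omega⟩
  rw [hk, Nat.add_sub_cancel]
  have e1 : (1 / (15 / 8 : ℝ)) = 8 / 15 := by norm_num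
  rw [e1]
  have h3 : (8 / 15 : ℝ) ^ (k + 1) ≤ (63 / 64 : ℝ) ^ v.length := by
    calc (8 / 15 : ℝ) ^ (k + 1) ≤ ((63 / 64 : ℝ) ^ 16) ^ (k + 1) := by
          apply pow_le_pow_left₀ (by norm_num)
          norm_num
      _ = (63 / 64 : ℝ) ^ (16 * (k + 1)) := by rw [pow_mul]
      _ ≤ (63 / 64 : ℝ) ^ v.length := by
          apply pow_le_pow_of_le_one (by norm_num) (by norm_num)
          omega
  have h4 : (8 / 15 : ℝ) ^ k = 15 / 8 * (8 / 15 : ℝ) ^ (k + 1) := by
    rw [pow_succ]; ring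
  rw [h4]
  push_cast
  nlinarith [h3]

lemma weight_false {r0 : ℕ} (h30 : 30 ≤ r0) {𝓕 : Finset Sig} {f : Sig}
    (h : (f, false) ∈ events r0 𝓕) {v : Sig} (hv : v ∈ evars (f, false)) :
    (ecount (f, false) : ℝ) * (1 / (15 / 8 : ℝ)) ^ ((evars (f, false)).card - 1) ≤
      15 / 4 * (63 / 64 : ℝ) ^ v.length ∧ r0 ≤ v.length + 2 := by
  obtain ⟨_, h1, h2⟩ := mem_events_false.1 h
  have hlen : v.length + 2 = f.length := by
    simp only [evars, Bool.false_eq_true, if_false, mem_image, mem_union] at hv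
    rcases hv with ⟨j, hj, rfl⟩ | ⟨j, hj, rfl⟩
    · exact length_zA hj
    · exact length_zB hj
  refine ⟨?_, by omega⟩
  rw [card_evars_false]
  simp only [ecount, Bool.false_eq_true, if_false]
  set m := (zig f).card with hm
  have hm1 : 1 ≤ m := by omega
  have e1 : (1 / (15 / 8 : ℝ)) = 8 / 15 := by norm_num
  rw [e1]
  have h3 : (64 / 75 : ℝ) ^ m ≤ (63 / 64 : ℝ) ^ v.length := by
    calc (64 / 75 : ℝ) ^ m ≤ ((63 / 64 : ℝ) ^ 10) ^ m := by
          apply pow_le_pow_left₀ (by norm_num)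
          norm_num
      _ = (63 / 64 : ℝ) ^ (10 * m) := by rw [pow_mul]
      _ ≤ (63 / 64 : ℝ) ^ v.length := by
          apply pow_le_pow_of_le_one (by norm_num) (by norm_num)
          omega
  have h4 : (8 / 15 : ℝ) ^ (2 * m - 1) = 15 / 8 * (8 / 15 : ℝ) ^ (2 * m) := by
    obtain ⟨k, hk⟩ : ∃ k, 2 * m = k + 1 := ⟨2 * m - 1, by omega⟩
    rw [hk, Nat.add_sub_cancel, pow_succ]; ring
  have h5 : (3 : ℝ) ^ m * (8 / 15 : ℝ) ^ (2 * m) = (64 / 75 : ℝ) ^ m := by
    rw [pow_mul, ← mul_pow]; norm_num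
  rw [h4]
  push_cast
  have : (2 : ℝ) * 3 ^ m * (15 / 8 * (8 / 15) ^ (2 * m)) = 15 / 4 * (3 ^ m * (8 / 15) ^ (2 * m)) := by
    ring
  rw [this, h5]
  nlinarith [h3]

lemma events_at (r0 : ℕ) (𝓕 : Finset Sig) (v : Sig) :
    (events r0 𝓕).filter (fun e => v ∈ evars e) ⊆
      (range v.length).image (fun j => (incr v j, true)) ∪
      (range v.length).image (fun j => (expd v j, false)) := by
  rintro ⟨f, b⟩ h
  rw [mem_filter] at h
  obtain ⟨h1, h2⟩ := h
  rw [mem_union, mem_image, mem_image]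
  cases b
  · right
    simp only [evars, Bool.false_eq_true, if_false, mem_image, mem_union] at h2
    rcases h2 with ⟨j, hj, rfl⟩ | ⟨j, hj, rfl⟩
    · refine ⟨j, ?_, ?_⟩
      · have := length_zA hj
        have := zig_lt hj
        rw [mem_range]; omega
      · rw [zA, expd_eq hj]
    · refine ⟨j, ?_, ?_⟩
      · have := length_zB hj
        have := zig_lt hj
        rw [mem_range]; omega
      · rw [zB, expd_eq hj]
  · left
    simp only [evars, if_true, mem_image] at h2
    obtain ⟨j, hj, rfl⟩ := h2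
    refine ⟨j, ?_, ?_⟩
    · rw [length_decr, mem_range]
      rw [longIdx, mem_filter, mem_range] at hj
      exact hj.1
    · rw [incr_decr hj]

/-- Existence of the colouring of signatures. -/
theorem exists_rho : ∃ r0 : ℕ, 30 ≤ r0 ∧ ∀ 𝓕 : Finset Sig, ∃ ρ : Sig → Bool, ∀ f ∈ 𝓕,
    r0 ≤ f.length →
      (f.length ≤ 16 * (longIdx f).card → ∀ η : Bool, ∃ j ∈ longIdx f, ρ (decr f j) ≠ η) ∧
      (f.length ≤ 10 * (zig f).card →
        ∀ η : Bool, ∃ j ∈ zig f, ρ (zA f j) ≠ η ∧ ρ (zB f j) ≠ η) := by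
  obtain ⟨r0, h30, hr0⟩ := exists_threshold
  refine ⟨r0, h30, fun 𝓕 => ?_⟩
  have hne : ∀ e ∈ events r0 𝓕, (evars e).Nonempty := by
    rintro ⟨f, b⟩ he
    rw [← card_pos]
    cases b
    · rw [card_evars_false]
      obtain ⟨_, h1, h2⟩ := mem_events_false.1 he
      omega
    · rw [card_evars_true]
      obtain ⟨_, h1, h2⟩ := mem_events_true.1 he
      omega
  have hb : ∀ e ∈ events r0 𝓕, ∀ B : Finset (Finset Sig),
      (∀ A ∈ B, A ⊆ evars e ∧ ebad e A) → B.card ≤ ecount e := by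
    rintro ⟨f, b⟩ _ B hB
    cases b
    · simp only [ecount, Bool.false_eq_true, if_false]
      exact ecount_false f B hB
    · simp only [ecount, if_true]
      exact ecount_true f B hB
  have hw : ∀ v, ∑ e ∈ (events r0 𝓕).filter (fun e => v ∈ evars e),
      (ecount e : ℝ) * (1 / (15 / 8 : ℝ)) ^ ((evars e).card - 1) ≤ 2 - 15 / 8 := by
    intro v
    set S := (events r0 𝓕).filter (fun e => v ∈ evars e) with hS
    rcases S.eq_empty_or_nonempty with h0 | h0
    · rw [h0]; norm_num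
    have hbound : ∀ e ∈ S, (ecount e : ℝ) * (1 / (15 / 8 : ℝ)) ^ ((evars e).card - 1) ≤
        15 / 4 * (63 / 64 : ℝ) ^ v.length ∧ r0 ≤ v.length + 2 := by
      rintro ⟨f, b⟩ he
      rw [hS, mem_filter] at he
      cases b
      · exact weight_false h30 he.1 he.2
      · obtain ⟨h1, h2⟩ := weight_true h30 he.1 he.2
        exact ⟨h1, by omega⟩
    have hlen : r0 ≤ v.length + 2 := by
      obtain ⟨e, he⟩ := h0
      exact (hbound e he).2
    have hcard : S.card ≤ 2 * v.length := by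
      refine (card_le_card (events_at r0 𝓕 v)).trans ((card_union_le _ _).trans ?_)
      have h1 := card_image_le (s := range v.length) (f := fun j => (incr v j, true))
      have h2 := card_image_le (s := range v.length) (f := fun j => (expd v j, false))
      rw [card_range] at h1 h2
      omega
    have h1 : ∑ e ∈ S, (ecount e : ℝ) * (1 / (15 / 8 : ℝ)) ^ ((evars e).card - 1) ≤
        S.card • (15 / 4 * (63 / 64 : ℝ) ^ v.length) :=
      sum_le_card_nsmul _ _ _ (fun e he => (hbound e he).1)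
    refine h1.trans ?_
    rw [nsmul_eq_mul]
    have h2 : (S.card : ℝ) ≤ 2 * v.length := by exact_mod_cast hcard
    have h3 := hr0 v.length hlen
    have h4 : (0 : ℝ) ≤ (63 / 64 : ℝ) ^ v.length := by positivity
    nlinarith [mul_le_mul_of_nonneg_right h2 h4]
  obtain ⟨A, hA⟩ := exists_good (β := (15 / 8 : ℝ)) (by norm_num) ecount hne hb hw
  refine ⟨fun v => decide (v ∈ A), fun f hf hr => ⟨fun h1 η => ?_, fun h1 η => ?_⟩⟩
  · by_contra hcon
    push Not at hcon
    apply hA (f, true) (mem_events_true.2 ⟨hf, hr, h1⟩)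
    simp only [ebad, if_true]
    refine ⟨η, fun j hj => ?_⟩
    have h2 := hcon j hj
    have h3 : decr f j ∈ evars (f, true) := by
      simp only [evars, if_true]
      exact mem_image_of_mem _ hj
    rw [← h2]
    simp [h3]
  · by_contra hcon
    apply hA (f, false) (mem_events_false.2 ⟨hf, hr, h1⟩)
    simp only [ebad, Bool.false_eq_true, if_false]
    refine ⟨η, fun j hj => ?_⟩
    have h3 : zA f j ∈ evars (f, false) := by
      simp only [evars, Bool.false_eq_true, if_false]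
      exact mem_union_left _ (mem_image_of_mem _ hj)
    have h4 : zB f j ∈ evars (f, false) := by
      simp only [evars, Bool.false_eq_true, if_false]
      exact mem_union_right _ (mem_image_of_mem _ hj)
    by_contra hc
    push Not at hc
    apply hcon
    refine ⟨j, hj, ?_, ?_⟩
    · have := hc.1
      simpa [h3] using this
    · have := hc.2
      simpa [h4] using this

end Pool.Agent.N479.RK
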