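import Mathlib
import Pool.Agent.N479.RK.SigExists
import Pool.Agent.N479.RK.Delta
import Pool.Agent.N479.RK.Labels

set_option autoImplicit false

/-!
# The stepping-up step with two colours

`Good m N`: there is a two-colouring of finite sets such that every subset `Y` of `range N` with
more than `m` elements has two subsets of size `|Y| - 1` with different colours.  We show that
`Good m ((N + 1) * r0)` implies `Good (m + 3 * r0 + 2) (2 ^ N)` for an absolute constant `r0`.
-/

namespace Pool.Agent.N479.RK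

open Finset

/-- one colouring that works for all sizes above `m` -/
def Good (m N : ℕ) : Prop :=
  ∃ χ : Finset ℕ → Bool, ∀ Y ⊆ range N, m < Y.card → ∃ y ∈ Y, ∃ y' ∈ Y,
    χ (Y.erase y) ≠ χ (Y.erase y')

/-- the runs of a list -/
def runs : List ℕ → Runs
  | [] => []
  | p :: xs => dcp p xs

/-- the runs of the sequence of a finite set -/
def rn (X : Finset ℕ) : Runs := runs (sq X)

lemma rn_eq {X : Finset ℕ} {p : ℕ} {L : Runs} (h : sq X = p :: fl L) (hv : Valid p L) :
    rn X = L := by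
  rw [rn, h, runs, dcp_fl hv]

lemma isChain_sq (X : Finset ℕ) : (sq X).IsChain (· ≠ ·) := by
  rw [List.isChain_iff_forall_rel_of_append_cons_cons]
  intro a b l1 l2 h
  exact (sq_delete h).1

lemma exists_runs {X : Finset ℕ} (h : sq X ≠ []) :
    ∃ p L, sq X = p :: fl L ∧ Valid p L ∧ rn X = L := by
  rcases hs : sq X with _ | ⟨p, xs⟩
  · exact absurd hs h
  have h1 := isChain_sq X
  rw [hs] at h1
  obtain ⟨h2, h3⟩ := valid_dcp xs p h1
  refine ⟨p, dcp p xs, by rw [h3], h2, ?_⟩
  rw [rn, hs, runs]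

/-- delete an entry which is not the last entry of its run -/
lemma op_interior {X : Finset ℕ} {p x : ℕ} {A B : Runs} {b : Bool} {R1 R2 : List ℕ}
    (h : sq X = p :: fl (A ++ (b, R1 ++ x :: R2) :: B))
    (hv : Valid p (A ++ (b, R1 ++ x :: R2) :: B)) (hR2 : R2 ≠ []) :
    ∃ z ∈ X, rn (X.erase z) = A ++ (b, R1 ++ R2) :: B := by
  obtain ⟨S, q, h1, h2, h3⟩ := valid_context A p _ hv
  obtain ⟨h4, S', e, y, R2', h5, h6, h7, h8⟩ := valid_interior R1 q x R2 b B hR2 h2
  have h9 := h3 _ h4 (by simp)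
  have e1 : p :: fl (A ++ (b, R1 ++ x :: R2) :: B) = (S ++ S') ++ e :: x :: y :: (R2' ++ fl B) := by
    rw [fl_append, fl_cons, ← List.cons_append, h1, h6]
    have : S ++ [q] ++ (R1 ++ x :: y :: R2' ++ fl B) = S ++ (q :: R1) ++ x :: y :: (R2' ++ fl B) := by
      simp
    rw [this, h5]
    simp
  have e2 : p :: fl (A ++ (b, R1 ++ R2) :: B) = (S ++ S') ++ e :: y :: (R2' ++ fl B) := by
    rw [fl_append, fl_cons, ← List.cons_append, h1, h6]
    have : S ++ [q] ++ (R1 ++ y :: R2' ++ fl B) = S ++ (q :: R1) ++ y :: (R2' ++ fl B) := by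
      simp
    rw [this, h5]
    simp
  rw [e1] at h
  have key : ∃ z ∈ X, sq (X.erase z) = (S ++ S') ++ e :: y :: (R2' ++ fl B) := by
    cases b
    · simp only [cmp, Bool.false_eq_true, if_false] at h7
      obtain ⟨-, z, hz, hz'⟩ := sq_delete h
      refine ⟨z, hz, ?_⟩
      rw [hz', max_eq_left h7.le]
    · simp only [cmp, if_true] at h8
      have h' : sq X = (S ++ S' ++ [e]) ++ x :: y :: (R2' ++ fl B) := by rw [h]; simp
      obtain ⟨-, z, hz, hz'⟩ := sq_delete h'
      refine ⟨z, hz, ?_⟩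
      rw [hz', max_eq_right h8.le]
      simp
  obtain ⟨z, hz, hz'⟩ := key
  refine ⟨z, hz, rn_eq (p := p) ?_ h9⟩
  rw [hz', e2]

/-- contract a zigzag -/
lemma op_zigzag {X : Finset ℕ} {p x1 x2 x3 x4 : ℕ} {A B : Runs}
    (h : sq X = p :: fl (A ++ (true, [x1]) :: (false, [x2]) :: (true, [x3]) :: (false, [x4]) :: B))
    (hv : Valid p (A ++ (true, [x1]) :: (false, [x2]) :: (true, [x3]) :: (false, [x4]) :: B)) :
    ∃ z ∈ X, rn (X.erase z) = A ++ (true, [x1, x3]) :: (false, [x4]) :: B ∨
      rn (X.erase z) = A ++ (true, [x1]) :: (false, [x3, x4]) :: B := by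
  obtain ⟨S, q, h1, h2, h3⟩ := valid_context A p _ hv
  obtain ⟨h4, h5, h6, h7, h8, h9⟩ := valid_zigzag h2
  have e1 : p :: fl (A ++ (true, [x1]) :: (false, [x2]) :: (true, [x3]) :: (false, [x4]) :: B) =
      (S ++ [q]) ++ x1 :: x2 :: (x3 :: x4 :: fl B) := by
    rw [fl_append, ← List.cons_append, h1]
    simp [fl]
  rw [e1] at h
  obtain ⟨-, z, hz, hz'⟩ := sq_delete h
  rw [max_eq_left h5.le] at hz'
  have hne := (sq_delete hz').1
  refine ⟨z, hz, ?_⟩
  rcases lt_or_gt_of_ne hne with hlt | hlt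
  · left
    have h10 := h3 _ (h8 hlt) (by simp)
    apply rn_eq (p := p) _ h10
    rw [hz', fl_append, ← List.cons_append, h1]
    simp [fl]
  · right
    have h10 := h3 _ (h9 hlt) (by simp)
    apply rn_eq (p := p) _ h10
    rw [hz', fl_append, ← List.cons_append, h1]
    simp [fl]

/-- the new colouring -/
def col (r0 N : ℕ) (ρ : Sig → Bool) (χ : Finset ℕ → Bool) (X : Finset ℕ) : Bool :=
  if r0 ≤ (rn X).length then ρ (sig (rn X))
  else xor (ρ (red (sig (rn X)))) (χ (Yl (N + 1) 0 (longs (rn X))))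

lemma col_big {r0 N : ℕ} {ρ : Sig → Bool} {χ : Finset ℕ → Bool} {X : Finset ℕ} {L : Runs}
    (h : rn X = L) (hL : r0 ≤ L.length) : col r0 N ρ χ X = ρ (sig L) := by
  rw [col, h, if_pos hL]

lemma col_small {r0 N : ℕ} {ρ : Sig → Bool} {χ : Finset ℕ → Bool} {X : Finset ℕ} {L : Runs}
    (h : rn X = L) (hL : ¬ r0 ≤ L.length) :
    col r0 N ρ χ X = xor (ρ (red (sig L))) (χ (Yl (N + 1) 0 (longs L))) := by
  rw [col, h, if_neg hL]

/-- few runs: every label can be deleted -/
lemma few_runs {r0 N : ℕ} {ρ : Sig → Bool} {χ : Finset ℕ → Bool} {X : Finset ℕ} {p : ℕ} {L : Runs}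
    (hX : ∀ d ∈ sq X, d < N + 1)
    (h : sq X = p :: fl L) (hv : Valid p L) (hL : ¬ r0 ≤ L.length) {y : ℕ}
    (hy : y ∈ Yl (N + 1) 0 (longs L)) :
    ∃ z ∈ X, col r0 N ρ χ (X.erase z) =
      xor (ρ (red (sig L))) (χ ((Yl (N + 1) 0 (longs L)).erase y)) := by
  obtain ⟨A', R, B', x, h1, h2, h3⟩ := mem_Yl hy
  obtain ⟨A, b, B, h4, h5, h6, h7⟩ := longs_split h1
  obtain ⟨R1, R2a, h8⟩ := List.append_of_mem h2
  have h9 : R = R1 ++ x :: (R2a ++ R.drop (R.length - 3)) := by
    conv_lhs => rw [← List.take_append_drop (R.length - 3) R, h8]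
    simp
  set R2 := R2a ++ R.drop (R.length - 3) with hR2
  have h10 : 3 ≤ R2.length := by
    rw [hR2, List.length_append, List.length_drop]
    omega
  have hne : R2 ≠ [] := by
    intro h
    rw [h] at h10
    simp at h10
  rw [h9] at h4
  have h' := h
  have hv' := hv
  rw [h4] at h' hv'
  obtain ⟨z, hz, hz'⟩ := op_interior h' hv' hne
  refine ⟨z, hz, ?_⟩
  have hlen : ¬ r0 ≤ (A ++ (b, R1 ++ R2) :: B).length := by
    rw [h4] at hL
    simpa using hL
  rw [col_small hz' hlen]
  have hred : red (sig (A ++ (b, R1 ++ R2) :: B)) = red (sig L) := by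
    rw [h4, sig_append, sig_append, sig_cons, sig_cons, red_append, red_append, red_cons, red_cons]
    have e1 : min (R1 ++ R2).length 3 = 3 := by rw [List.length_append]; omega
    have e2 : min (R1 ++ x :: R2).length 3 = 3 := by
      rw [List.length_append, List.length_cons]; omega
    rw [e1, e2]
  have hlongs : longs L = longs A ++ (R1 ++ x :: R2) :: longs B := by
    rw [h4, longs_append, longs_cons_long (by rw [List.length_append, List.length_cons]; omega)]
  have hlongs' : longs (A ++ (b, R1 ++ R2) :: B) = longs A ++ (R1 ++ R2) :: longs B := by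
    rw [longs_append, longs_cons_long (by rw [List.length_append]; omega)]
  have hbd : ∀ R ∈ longs L, ∀ w ∈ R, w < N + 1 := by
    intro R hR w hw
    obtain ⟨c, hc⟩ := longs_mem hR
    apply hX
    rw [h]
    apply List.mem_cons_of_mem
    rw [fl, List.mem_flatMap]
    exact ⟨_, hc, hw⟩
  have hnd : (R1 ++ x :: R2).Nodup := valid_nodup hv (b, R1 ++ x :: R2) (by rw [h4]; simp)
  have hY : Yl (N + 1) 0 (longs (A ++ (b, R1 ++ R2) :: B)) = (Yl (N + 1) 0 (longs L)).erase y := by
    rw [hlongs', hlongs, Yl_erase h10 (hlongs ▸ hbd) hnd, h3, h5]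
  rw [hred, hY]

lemma modify_append_length {α : Type} : ∀ (A : List α) (a : α) (B : List α) (g : α → α),
    (A ++ a :: B).modify A.length g = A ++ g a :: B := by
  intro A
  induction A with
  | nil => intro a B g; simp
  | cons c A ih =>
    intro a B g
    simp [ih]

/-- many long runs -/
lemma many_long {r0 N : ℕ} {ρ : Sig → Bool} {χ : Finset ℕ → Bool} {X : Finset ℕ} {p : ℕ} {L : Runs}
    (h : sq X = p :: fl L) (hv : Valid p L) (hL : r0 ≤ L.length) {j : ℕ}
    (hj : j ∈ longIdx (sig L)) :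
    ∃ z ∈ X, col r0 N ρ χ (X.erase z) = ρ (decr (sig L) j) := by
  obtain ⟨q, hq, hq2⟩ := mem_longIdx.1 hj
  rw [sig, List.getElem?_map, Option.map_eq_some_iff] at hq
  obtain ⟨⟨b, R⟩, hR, rfl⟩ := hq
  simp only at hq2
  obtain ⟨hjL, hjR⟩ := List.getElem?_eq_some_iff.1 hR
  have hsplit : L = L.take j ++ (b, R) :: L.drop (j + 1) := by
    rw [← hjR, ← List.drop_eq_getElem_cons hjL, List.take_append_drop]
  rcases R with _ | ⟨x, R2⟩
  · simp at hq2
  have hR2 : R2 ≠ [] := by
    intro h
    rw [h] at hq2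
    simp at hq2
  have h' := h
  have hv' := hv
  rw [hsplit] at h' hv'
  obtain ⟨z, hz, hz'⟩ := op_interior (R1 := []) h' hv' hR2
  rw [List.nil_append] at hz'
  refine ⟨z, hz, ?_⟩
  have hlen : r0 ≤ (L.take j ++ (b, R2) :: L.drop (j + 1)).length := by
    rw [List.length_append, List.length_cons, List.length_take, List.length_drop]
    omega
  rw [col_big hz' hlen]
  congr 1
  conv_rhs => rw [hsplit]
  rw [sig_append, sig_append, sig_cons, sig_cons, decr]
  have hl : (sig (L.take j)).length = j := by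
    rw [length_sig, List.length_take]; omega
  have := modify_append_length (sig (L.take j)) (b, (x :: R2).length) (sig (L.drop (j + 1)))
    (fun p => (p.1, p.2 - 1))
  rw [hl] at this
  rw [this]
  simp

/-- a zigzag in a list of runs -/
lemma split_zig {L : Runs} {j : ℕ} (hj : j ∈ zig (sig L)) :
    ∃ A x1 x2 x3 x4 B, A.length = j ∧
      L = A ++ (true, [x1]) :: (false, [x2]) :: (true, [x3]) :: (false, [x4]) :: B := by
  obtain ⟨h1, h2, h3, h4⟩ := mem_zig.1 hj
  have key : ∀ (i : ℕ) (b : Bool), (sig L)[i]? = some (b, 1) → ∃ x, L[i]? = some (b, [x]) := by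
    intro i b h
    rw [sig, List.getElem?_map, Option.map_eq_some_iff] at h
    obtain ⟨⟨c, R⟩, hR, h⟩ := h
    simp only [Prod.mk.injEq] at h
    obtain ⟨x, hx⟩ := List.length_eq_one_iff.1 h.2
    exact ⟨x, by rw [hR, h.1, hx]⟩
  obtain ⟨x1, k1⟩ := key _ _ h1
  obtain ⟨x2, k2⟩ := key _ _ h2
  obtain ⟨x3, k3⟩ := key _ _ h3
  obtain ⟨x4, k4⟩ := key _ _ h4
  obtain ⟨l1, m1⟩ := List.getElem?_eq_some_iff.1 k1
  obtain ⟨l2, m2⟩ := List.getElem?_eq_some_iff.1 k2
  obtain ⟨l3, m3⟩ := List.getElem?_eq_some_iff.1 k3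
  obtain ⟨l4, m4⟩ := List.getElem?_eq_some_iff.1 k4
  refine ⟨L.take j, x1, x2, x3, x4, L.drop (j + 4), by rw [List.length_take]; omega, ?_⟩
  conv_lhs => rw [← List.take_append_drop j L]
  congr 1
  rw [List.drop_eq_getElem_cons l1, m1, List.drop_eq_getElem_cons l2, m2,
    List.drop_eq_getElem_cons l3, m3, List.drop_eq_getElem_cons l4, m4]

/-- many zigzags -/
lemma many_zig {X : Finset ℕ} {p : ℕ} {L : Runs}
    (h : sq X = p :: fl L) (hv : Valid p L) {j : ℕ} (hj : j ∈ zig (sig L)) :
    ∃ z ∈ X, (sig (rn (X.erase z)) = zA (sig L) j ∨ sig (rn (X.erase z)) = zB (sig L) j) ∧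
      longs (rn (X.erase z)) = longs L ∧ (rn (X.erase z)).length + 2 = L.length := by
  obtain ⟨A, x1, x2, x3, x4, B, hA, hL⟩ := split_zig hj
  have h' := h
  have hv' := hv
  rw [hL] at h' hv'
  obtain ⟨z, hz, hz'⟩ := op_zigzag h' hv'
  refine ⟨z, hz, ?_⟩
  have hl : (sig A).length = j := by rw [length_sig, hA]
  rcases hz' with hz' | hz'
  · refine ⟨Or.inl ?_, ?_, ?_⟩
    · rw [hz', hL, zA]
      simp only [sig_append, sig_cons]
      rw [← hl, List.take_left, ← List.drop_drop, List.drop_left]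
      simp
    · rw [hz', hL]
      simp [longs_append, longs_cons_short]
    · rw [hz', hL]
      simp
      omega
  · refine ⟨Or.inr ?_, ?_, ?_⟩
    · rw [hz', hL, zB]
      simp only [sig_append, sig_cons]
      rw [← hl, List.take_left, ← List.drop_drop, List.drop_left]
      simp
    · rw [hz', hL]
      simp [longs_append, longs_cons_short]
    · rw [hz', hL]
      simp
      omega

/-- The stepping-up step. -/
theorem step : ∃ r0 : ℕ, 30 ≤ r0 ∧ ∀ m N : ℕ, Good m ((N + 1) * r0) →
    Good (m + 3 * r0 + 2) (2 ^ N) := by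
  classical
  obtain ⟨r0, h30, hρ⟩ := exists_rho
  refine ⟨r0, h30, fun m N ⟨χ, hχ⟩ => ?_⟩
  obtain ⟨ρ, hρ⟩ := hρ (((range (2 ^ N)).powerset.image (fun X => sig (rn X))) ∪
    ((range (2 ^ N)).powerset.image (fun X => red (sig (rn X)))))
  refine ⟨col r0 N ρ χ, fun X hX hcard => ?_⟩
  have hlen := length_sq X
  have hne : sq X ≠ [] := by
    intro h
    rw [h] at hlen
    simp only [List.length_nil] at hlen
    omega
  obtain ⟨p, L, h, hv, hrn⟩ := exists_runs hne
  have hsq : ∀ d ∈ sq X, d < N + 1 := sq_lt (fun x hx => mem_range.1 (hX hx))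
  have hlen2 : (fl L).length + 2 = X.card := by
    rw [h, List.length_cons] at hlen
    omega
  have hmem : sig L ∈ ((range (2 ^ N)).powerset.image (fun X => sig (rn X))) ∪
      ((range (2 ^ N)).powerset.image (fun X => red (sig (rn X)))) :=
    mem_union_left _ (mem_image.2 ⟨X, mem_powerset.2 hX, by rw [hrn]⟩)
  have hmem' : red (sig L) ∈ ((range (2 ^ N)).powerset.image (fun X => sig (rn X))) ∪
      ((range (2 ^ N)).powerset.image (fun X => red (sig (rn X)))) :=
    mem_union_right _ (mem_image.2 ⟨X, mem_powerset.2 hX, by rw [hrn]⟩)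
  -- it suffices to find both colours
  suffices hs : ∃ z ∈ X, ∃ z' ∈ X, col r0 N ρ χ (X.erase z) ≠ col r0 N ρ χ (X.erase z') from hs
  by_cases hL : r0 ≤ L.length
  · obtain ⟨hρ1, hρ2⟩ := hρ _ hmem (by rw [length_sig]; exact hL)
    by_cases hJ : (sig L).length ≤ 16 * (longIdx (sig L)).card
    · obtain ⟨j, hj, hj'⟩ := hρ1 hJ true
      obtain ⟨i, hi, hi'⟩ := hρ1 hJ (ρ (decr (sig L) j))
      obtain ⟨z, hz, hz'⟩ := many_long (ρ := ρ) (χ := χ) (N := N) h hv hL hj
      obtain ⟨w, hw, hw'⟩ := many_long (ρ := ρ) (χ := χ) (N := N) h hv hL hi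
      exact ⟨w, hw, z, hz, by rw [hz', hw']; exact hi'⟩
    · have hZ := long_or_zig hv (by rw [length_sig]; omega) hJ
      by_cases hbig : r0 + 2 ≤ L.length
      · have key : ∀ η : Bool, ∃ z ∈ X, col r0 N ρ χ (X.erase z) ≠ η := by
          intro η
          obtain ⟨j, hj, hjA, hjB⟩ := hρ2 hZ η
          obtain ⟨z, hz, h1, h2, h3⟩ := many_zig h hv hj
          refine ⟨z, hz, ?_⟩
          rw [col_big rfl (by omega)]
          rcases h1 with h1 | h1
          · rw [h1]; exact hjA
          · rw [h1]; exact hjB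
        obtain ⟨z, hz, hz'⟩ := key true
        obtain ⟨w, hw, hw'⟩ := key (col r0 N ρ χ (X.erase z))
        exact ⟨w, hw, z, hz, hw'⟩
      · obtain ⟨-, hρ3⟩ := hρ _ hmem' (by rw [length_red, length_sig]; exact hL)
        have hZ' : (red (sig L)).length ≤ 10 * (zig (red (sig L))).card := by
          rw [length_red, zig_red]; exact hZ
        have key : ∀ η : Bool, ∃ z ∈ X, col r0 N ρ χ (X.erase z) ≠
            xor η (χ (Yl (N + 1) 0 (longs L))) := by
          intro η
          obtain ⟨j, hj, hjA, hjB⟩ := hρ3 hZ' η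
          rw [zig_red] at hj
          obtain ⟨z, hz, h1, h2, h3⟩ := many_zig h hv hj
          refine ⟨z, hz, ?_⟩
          rw [col_small rfl (by omega), h2]
          rcases h1 with h1 | h1
          · rw [h1, red_zA]
            intro hcon
            apply hjA
            revert hcon
            cases ρ (zA (red (sig L)) j) <;> cases η <;> cases χ (Yl (N + 1) 0 (longs L)) <;> simp
          · rw [h1, red_zB]
            intro hcon
            apply hjB
            revert hcon
            cases ρ (zB (red (sig L)) j) <;> cases η <;> cases χ (Yl (N + 1) 0 (longs L)) <;> simp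
        obtain ⟨z, hz, hz'⟩ := key true
        obtain ⟨w, hw, hw'⟩ := key false
        refine ⟨z, hz, w, hw, ?_⟩
        intro hcon
        rw [hcon] at hz'
        revert hz' hw'
        cases col r0 N ρ χ (X.erase w) <;> cases χ (Yl (N + 1) 0 (longs L)) <;> simp
  · have hbd : ∀ R ∈ longs L, ∀ w ∈ R, w < N + 1 := by
      intro R hR w hw
      obtain ⟨c, hc⟩ := longs_mem hR
      apply hsq
      rw [h]
      apply List.mem_cons_of_mem
      rw [fl, List.mem_flatMap]
      exact ⟨_, hc, hw⟩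
    have hnd : ∀ R ∈ longs L, R.Nodup := by
      intro R hR
      obtain ⟨c, hc⟩ := longs_mem hR
      exact valid_nodup hv _ hc
    have hYcard := card_Yl (N := N + 1) (Ls := longs L) 0 hbd hnd
    have hfl := length_fl_le L
    have hY : m < (Yl (N + 1) 0 (longs L)).card := by
      rw [hYcard]
      omega
    have hYsub : Yl (N + 1) 0 (longs L) ⊆ range ((N + 1) * r0) := by
      intro y hy
      rw [mem_range]
      have h1 := (Yl_range hbd hy).2
      have h2 := length_longs_le L
      have h3 : (N + 1) * (0 + (longs L).length) ≤ (N + 1) * r0 :=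
        Nat.mul_le_mul_left _ (by omega)
      omega
    obtain ⟨y, hy, y', hy', hyy⟩ := hχ _ hYsub hY
    obtain ⟨z, hz, hz'⟩ := few_runs (ρ := ρ) (χ := χ) hsq h hv hL hy
    obtain ⟨w, hw, hw'⟩ := few_runs (ρ := ρ) (χ := χ) hsq h hv hL hy'
    refine ⟨z, hz, w, hw, ?_⟩
    rw [hz', hw']
    intro hcon
    apply hyy
    revert hcon
    cases ρ (red (sig L)) <;> simp

end Pool.Agent.N479.RK
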