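import Mathlib

set_option autoImplicit false

/-!
# A finite hypergraph Ramsey theorem with a tower bound

A crude form of the Erdős–Rado argument.
-/

namespace Pool.Agent.N479.RK

open Finset

/-- a bound for the size of a set which contains an end-homogeneous subset of size `t` -/
def eh : ℕ → ℕ → ℕ
  | _, 0 => 1
  | p, t + 1 => 2 ^ 2 ^ (p + 2) * eh (p + 1) t

lemma eh_pos : ∀ t p : ℕ, 0 < eh p t := by
  intro t
  induction t with
  | zero => intro p; simp [eh]
  | succ t ih => intro p; rw [eh]; exact Nat.mul_pos (by positivity) (ih _)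

lemma eh_bound : ∀ t p : ℕ, eh p t * 2 ^ 2 ^ (p + 2) ≤ 2 ^ 2 ^ (p + t + 2) := by
  intro t
  induction t with
  | zero => intro p; simp [eh]
  | succ t ih =>
    intro p
    rw [eh]
    have h1 := ih (p + 1)
    have h2 : 2 ^ 2 ^ (p + 2) * 2 ^ 2 ^ (p + 2) = 2 ^ 2 ^ (p + 1 + 2) := by
      rw [← pow_add]
      congr 1
      ring
    have h3 : 2 ^ 2 ^ (p + (t + 1) + 2) = 2 ^ 2 ^ (p + 1 + t + 2) := by
      congr 2
      omega
    calc 2 ^ 2 ^ (p + 2) * eh (p + 1) t * 2 ^ 2 ^ (p + 2)
        = eh (p + 1) t * (2 ^ 2 ^ (p + 2) * 2 ^ 2 ^ (p + 2)) := by ring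
      _ = eh (p + 1) t * 2 ^ 2 ^ (p + 1 + 2) := by rw [h2]
      _ ≤ 2 ^ 2 ^ (p + 1 + t + 2) := h1
      _ = _ := h3.symm

/-- end-homogeneous subsets -/
lemma end_hom (χ : Finset ℕ → Bool) : ∀ (t : ℕ) (P A : Finset ℕ),
    (∀ T ⊆ P, ∀ y ∈ A, ∀ y' ∈ A, χ (insert y T) = χ (insert y' T)) →
    (∀ x ∈ P, ∀ y ∈ A, x < y) → eh P.card t ≤ A.card →
    ∃ S ⊆ A, S.card = t ∧ ∀ T ⊆ P ∪ S, ∀ y ∈ S, ∀ y' ∈ S, (∀ x ∈ T, x < y) → (∀ x ∈ T, x < y') →
      χ (insert y T) = χ (insert y' T) := by
  intro t
  induction t with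
  | zero =>
    intro P A _ _ _
    exact ⟨∅, empty_subset _, rfl, by simp⟩
  | succ t ih =>
    intro P A hu hlt hA
    have hApos : 0 < A.card := lt_of_lt_of_le (eh_pos _ _) hA
    have hne : A.Nonempty := card_pos.1 hApos
    set x := A.min' hne with hx
    have hxA : x ∈ A := min'_mem A hne
    have hxP : x ∉ P := fun h => absurd (hlt x h x hxA) (lt_irrefl _)
    -- classes of the remaining elements
    let g : ℕ → Finset (Finset ℕ) := fun y => (insert x P).powerset.filter (fun T => χ (insert y T))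
    have hmaps : ∀ y ∈ A.erase x, g y ∈ (insert x P).powerset.powerset := by
      intro y _
      rw [mem_powerset]
      exact filter_subset _ _
    have hcard1 : (insert x P).powerset.powerset.card = 2 ^ 2 ^ (P.card + 1) := by
      rw [card_powerset, card_powerset, card_insert_of_notMem hxP]
    have hbig : (insert x P).powerset.powerset.card * eh (P.card + 1) t ≤ (A.erase x).card := by
      rw [hcard1, card_erase_of_mem hxA]
      rw [eh] at hA
      have h1 : 2 ^ 2 ^ (P.card + 2) = 2 ^ 2 ^ (P.card + 1) * 2 ^ 2 ^ (P.card + 1) := by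
        rw [← pow_add]; congr 1; ring
      have h2 := eh_pos t (P.card + 1)
      have h3 : 2 ≤ 2 ^ 2 ^ (P.card + 1) := by
        calc 2 = 2 ^ 1 := by norm_num
          _ ≤ 2 ^ 2 ^ (P.card + 1) := Nat.pow_le_pow_right (by norm_num) Nat.one_le_two_pow
      have h4 : 0 < 2 ^ 2 ^ (P.card + 1) * eh (P.card + 1) t := by positivity
      have h5 : 2 * (2 ^ 2 ^ (P.card + 1) * eh (P.card + 1) t) ≤ A.card := by
        refine le_trans ?_ hA
        rw [h1, mul_assoc]
        exact Nat.mul_le_mul_right _ h3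
      omega
    obtain ⟨c, hc, hc2⟩ := exists_le_card_fiber_of_mul_le_card_of_maps_to hmaps
      ⟨_, mem_powerset.2 (empty_subset _)⟩ hbig
    set A' := (A.erase x).filter (fun y => g y = c) with hA'
    have hA'sub : A' ⊆ A := (filter_subset _ _).trans (erase_subset _ _)
    have hu' : ∀ T ⊆ insert x P, ∀ y ∈ A', ∀ y' ∈ A', χ (insert y T) = χ (insert y' T) := by
      intro T hT y hy y' hy'
      have e1 : g y = g y' := by
        rw [(mem_filter.1 hy).2, (mem_filter.1 hy').2]
      have e2 : T ∈ g y ↔ T ∈ g y' := by rw [e1]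
      simp only [g, mem_filter, mem_powerset, hT, true_and] at e2
      exact Bool.eq_iff_iff.2 e2
    have hlt' : ∀ z ∈ insert x P, ∀ y ∈ A', z < y := by
      intro z hz y hy
      rcases mem_insert.1 hz with rfl | hz
      · have h1 : y ∈ A.erase x := (mem_filter.1 hy).1
        have h2 := min'_le A y (mem_of_mem_erase h1)
        exact lt_of_le_of_ne h2 (fun h => (ne_of_mem_erase h1) h.symm)
      · exact hlt z hz y (hA'sub hy)
    have hcard' : eh (insert x P).card t ≤ A'.card := by
      rw [card_insert_of_notMem hxP]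
      exact hc2
    obtain ⟨S, hS, hScard, hSu⟩ := ih (insert x P) A' hu' hlt' hcard'
    have hxS : x ∉ S := by
      intro h
      have := (mem_filter.1 (hS h)).1
      exact (ne_of_mem_erase this) rfl
    refine ⟨insert x S, insert_subset hxA (hS.trans hA'sub), by rw [card_insert_of_notMem hxS, hScard],
      ?_⟩
    have hPS : P ∪ insert x S = insert x P ∪ S := by
      ext z; simp only [mem_union, mem_insert]; tauto
    intro T hT y hy y' hy' hTy hTy'
    rw [hPS] at hT
    -- if `T` lies below `x` then `T ⊆ P`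
    have hbelow : (∀ z ∈ T, z < x) → T ⊆ P := by
      intro h z hz
      have h1 := h z hz
      have h2 := hT hz
      rw [mem_union, mem_insert] at h2
      rcases h2 with (rfl | h2) | h2
      · exact absurd h1 (lt_irrefl _)
      · exact h2
      · have := hlt' x (mem_insert_self _ _) z (hS h2)
        omega
    rcases mem_insert.1 hy with hyx | hy1
    · exact hu T (hbelow (hyx ▸ hTy)) y (hyx ▸ hxA) y'
        ((insert_subset hxA (hS.trans hA'sub)) hy')
    · rcases mem_insert.1 hy' with hyx' | hy1'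
      · exact hu T (hbelow (hyx' ▸ hTy')) y (hA'sub (hS hy1)) y' (hyx' ▸ hxA)
      · exact hSu T hT y hy1 y' hy1' hTy hTy'

/-- bounds for Ramsey numbers -/
def rb (s : ℕ) : ℕ → ℕ
  | 0 => s
  | k + 1 => 2 ^ 2 ^ (rb s k + 3)

/-- the finite hypergraph Ramsey theorem -/
theorem ramsey_upper (s : ℕ) : ∀ (k : ℕ) (χ : Finset ℕ → Bool) (A : Finset ℕ), rb s k ≤ A.card →
    ∃ H ⊆ A, H.card = s ∧ ∃ c : Bool, ∀ e ⊆ H, e.card = k → χ e = c := by
  intro k
  induction k with
  | zero =>
    intro χ A hA
    obtain ⟨H, hH, hc⟩ := exists_subset_card_eq (show s ≤ A.card from hA)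
    refine ⟨H, hH, hc, χ ∅, fun e _ he => ?_⟩
    rw [card_eq_zero.1 he]
  | succ k ih =>
    intro χ A hA
    rw [rb] at hA
    have h2 := eh_bound (rb s k + 1) 0
    have h3 : 2 ^ 2 ^ (0 + (rb s k + 1) + 2) = 2 ^ 2 ^ (rb s k + 3) := by congr 2; omega
    have h4 : (Finset.univ : Finset Bool).card * eh (∅ : Finset ℕ).card (rb s k + 1) ≤ A.card := by
      rw [card_empty, Finset.card_univ, Fintype.card_bool]
      rw [h3] at h2
      norm_num at h2
      omega
    obtain ⟨c, -, hc⟩ := exists_le_card_fiber_of_mul_le_card_of_maps_to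
      (s := A) (t := (Finset.univ : Finset Bool)) (f := fun y => χ {y}) (fun _ _ => mem_univ _)
      ⟨true, mem_univ _⟩ h4
    obtain ⟨S, hS, hScard, hSu⟩ := end_hom χ (rb s k + 1) ∅ (A.filter (fun y => χ {y} = c)) (by
      intro T hT y hy y' hy'
      rw [subset_empty] at hT
      subst hT
      have e1 : χ {y} = c := (mem_filter.1 hy).2
      have e2 : χ {y'} = c := (mem_filter.1 hy').2
      simpa [e1] using e2.symm) (by simp) hc
    have hSne : S.Nonempty := card_pos.1 (by omega)
    set M := S.max' hSne with hM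
    have hMS : M ∈ S := max'_mem S hSne
    obtain ⟨H, hH, hHcard, d, hd⟩ := ih (fun T => χ (insert M T)) (S.erase M) (by
      rw [card_erase_of_mem hMS]; omega)
    have hHS : H ⊆ S := hH.trans (erase_subset _ _)
    refine ⟨H, hHS.trans (hS.trans (filter_subset _ _)), hHcard, d, fun e he hek => ?_⟩
    have hene : e.Nonempty := card_pos.1 (by omega)
    set y := e.max' hene with hy
    have hye : y ∈ e := max'_mem e hene
    have h5 : χ e = χ (insert y (e.erase y)) := by rw [insert_erase hye]
    rw [h5, hSu (e.erase y) ?_ y (hHS (he hye)) M hMS ?_ ?_]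
    · exact hd _ ((erase_subset _ _).trans he) (by rw [card_erase_of_mem hye]; omega)
    · rw [empty_union]
      exact (erase_subset _ _).trans (he.trans hHS)
    · intro x hx
      exact lt_of_le_of_ne (le_max' e x (mem_of_mem_erase hx)) (ne_of_mem_erase hx)
    · intro x hx
      have h6 : x ∈ S.erase M := hH (he (mem_of_mem_erase hx))
      exact lt_of_le_of_ne (le_max' S x (mem_of_mem_erase h6)) (ne_of_mem_erase h6)

end Pool.Agent.N479.RK
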