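import Mathlib
import Pool.Agent.N479.RK.Step
import Pool.Agent.N479.RK.Upper

set_option autoImplicit false

/-!
# Tower bounds
-/

namespace Pool.Agent.N479.RK

open Finset

lemma Good.mono {m m' N N' : ℕ} (h : Good m N) (hm : m ≤ m') (hN : N' ≤ N) : Good m' N' := by
  obtain ⟨χ, hχ⟩ := h
  exact ⟨χ, fun Y hY hc => hχ Y (hY.trans (range_subset_range.2 hN)) (by omega)⟩

lemma good_self (m : ℕ) : Good m m := by
  refine ⟨fun _ => true, fun Y hY hc => ?_⟩
  have := card_le_card hY
  rw [card_range] at this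
  omega

lemma exists_slack (R : ℕ) (hR : 30 ≤ R) : R * (2 * R + 1) ≤ 2 ^ (2 * R - 1) := by
  have h1 : 2 * R + 1 ≤ 2 ^ (R - 1) := by
    induction R, hR using Nat.le_induction with
    | base => norm_num
    | succ n hn ih =>
      have : n + 1 - 1 = (n - 1) + 1 := by omega
      rw [this, pow_succ]
      omega
  have h2 : R ≤ 2 ^ R := Nat.lt_two_pow_self.le
  have h3 : 2 * R - 1 = R + (R - 1) := by omega
  rw [h3, pow_add]
  exact Nat.mul_le_mul h2 h1

/-- the lower bound: iterate the step -/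
theorem lower_raw (tw : ℕ → ℕ) (h0 : tw 0 = 1) (h1 : ∀ n, tw (n + 1) = 2 ^ tw n) :
    ∃ M C : ℕ, 0 < C ∧ ∀ i, Good (M + i * C) (tw i) := by
  obtain ⟨R, h30, hstep⟩ := step
  have hpos : ∀ i, 1 ≤ tw i := by
    intro i
    cases i with
    | zero => rw [h0]
    | succ i => rw [h1]; exact Nat.one_le_two_pow
  refine ⟨R * (1 + 2 * R), 3 * R + 2, by omega, fun i => ?_⟩
  have key : ∀ i, Good (R * (1 + 2 * R) + i * (3 * R + 2)) (R * (tw i + 2 * R)) := by
    intro i
    induction i with
    | zero => rw [h0, zero_mul, add_zero]; exact good_self _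
    | succ i ih =>
      have h2 : R * (tw i + 2 * R) = ((tw i + 2 * R - 1) + 1) * R := by
        rw [Nat.sub_add_cancel (by have := hpos i; omega), mul_comm]
      rw [h2] at ih
      refine (hstep _ _ ih).mono ?_ ?_
      · rw [add_mul]; omega
      · have h3 : tw i + 2 * R - 1 = tw i + (2 * R - 1) := by omega
        rw [h3, pow_add, ← h1]
        have h4 := exists_slack R h30
        have h5 := hpos (i + 1)
        calc R * (tw (i + 1) + 2 * R) ≤ R * (tw (i + 1) * (2 * R + 1)) := by
              apply Nat.mul_le_mul_left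
              nlinarith
          _ = tw (i + 1) * (R * (2 * R + 1)) := by ring
          _ ≤ tw (i + 1) * 2 ^ (2 * R - 1) := Nat.mul_le_mul_left _ h4
  refine (key i).mono le_rfl ?_
  have : 1 ≤ R := by omega
  nlinarith

/-- the upper bound -/
theorem upper_raw (tw : ℕ → ℕ) (h0 : tw 0 = 1) (h1 : ∀ n, tw (n + 1) = 2 ^ tw n) (s : ℕ)
    (hs : 2 ≤ s) (k : ℕ) : rb s k ≤ tw (s + 3 * k) := by
  have hlt : ∀ n, n < tw n := by
    intro n
    induction n with
    | zero => rw [h0]; norm_num
    | succ n ih =>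
      rw [h1]
      have : n + 1 ≤ tw n := ih
      calc n + 1 < 2 ^ (n + 1) := Nat.lt_two_pow_self
        _ ≤ 2 ^ tw n := Nat.pow_le_pow_right (by norm_num) this
  have h4 : ∀ n, 2 ≤ n → 4 ≤ tw n := by
    intro n hn
    obtain ⟨m, rfl⟩ := Nat.exists_eq_add_of_le hn
    rw [add_comm, h1, h1]
    have h2 : 1 ≤ tw m := by have := hlt m; omega
    have h3 : 2 ≤ 2 ^ tw m := by
      calc 2 = 2 ^ 1 := by norm_num
        _ ≤ 2 ^ tw m := Nat.pow_le_pow_right (by norm_num) h2
    calc 4 = 2 ^ 2 := by norm_num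
      _ ≤ 2 ^ 2 ^ tw m := Nat.pow_le_pow_right (by norm_num) h3
  have h5 : ∀ a, 4 ≤ a → a + 3 ≤ 2 ^ a := by
    intro a ha
    induction a, ha using Nat.le_induction with
    | base => norm_num
    | succ n hn ih => rw [pow_succ]; omega
  induction k with
  | zero => rw [rb]; exact (hlt s).le
  | succ k ih =>
    rw [rb, show s + 3 * (k + 1) = s + 3 * k + 1 + 1 + 1 by ring, h1, h1, h1]
    apply Nat.pow_le_pow_right (by norm_num)
    apply Nat.pow_le_pow_right (by norm_num)
    exact le_trans (by omega) (h5 _ (h4 (s + 3 * k) (by omega)))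

end Pool.Agent.N479.RK
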